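import Mathlib

/-!
# de Rham-Betti classes on powers of K3 surfaces (definitions and statements of the parts)

Everything here is linear algebra.  `U`, `V` are finite dimensional real vector spaces with a
symmetric bilinear form `B`.
-/

open Module Finset

namespace Pool.Agent.W544.K3

noncomputable section

/-! ### Operators and bilinear forms -/

section ops
variable {U : Type} [AddCommGroup U] [Module ℝ U]

/-- `x` is skew for `B`. -/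
def Skew (B : U →ₗ[ℝ] U →ₗ[ℝ] ℝ) (x : End ℝ U) : Prop :=
  ∀ u v, B (x u) v + B u (x v) = 0

/-- `x` is symmetric for `B`. -/
def SymOp (B : U →ₗ[ℝ] U →ₗ[ℝ] ℝ) (x : End ℝ U) : Prop :=
  ∀ u v, B (x u) v = B u (x v)

/-- `P` is an inner product. -/
def IsPos (P : U →ₗ[ℝ] U →ₗ[ℝ] ℝ) : Prop :=
  (∀ u v, P u v = P v u) ∧ ∀ u, u ≠ 0 → 0 < P u u

/-- `B` is symmetric of signature `(2, dim - 2)`. -/
def Sig2 (B : U →ₗ[ℝ] U →ₗ[ℝ] ℝ) : Prop :=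
  (∀ u v, B u v = B v u) ∧ ∃ p q : U, 0 < B p p ∧ 0 < B q q ∧ B p q = 0 ∧
    ∀ v, v ≠ 0 → B v p = 0 → B v q = 0 → B v v < 0

/-- A real subspace of `U × U = U ⊕ i U` which is a complex subspace. -/
def JStable (M : Submodule ℝ (U × U)) : Prop := ∀ p ∈ M, ((-p.2, p.1) : U × U) ∈ M

/-- A subspace of `U × U` which is stable under the operators in `h`. -/
def OpStable (h : Set (End ℝ U)) (M : Submodule ℝ (U × U)) : Prop :=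
  ∀ y ∈ h, ∀ p ∈ M, ((y p.1, y p.2) : U × U) ∈ M

/-- The complexification of `U` has no proper complex subspace stable under `h`. -/
def CIrr (h : Set (End ℝ U)) : Prop :=
  ∀ M : Submodule ℝ (U × U), JStable M → OpStable h M → M = ⊥ ∨ M = ⊤

/-- `x` is diagonalisable over the reals. -/
def Diag (x : End ℝ U) : Prop := ⨆ μ : ℝ, End.eigenspace x μ = ⊤

/-- `y` is homogeneous of degree `α` for `x`. -/
def Hom (x : End ℝ U) (α : ℝ) (y : End ℝ U) : Prop := x * y - y * x = α • y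

/-- The operator `u ∧ v` of `so(B)`. -/
def wedge (B : U →ₗ[ℝ] U →ₗ[ℝ] ℝ) (u v : U) : End ℝ U :=
  (B u).smulRight v - (B v).smulRight u

theorem wedge_apply (B : U →ₗ[ℝ] U →ₗ[ℝ] ℝ) (u v w : U) :
    wedge B u v w = B u w • v - B v w • u := by
  simp [wedge]

/-- `z = α + i β` is an eigenvalue of `g` on the complexification of `U`. -/
def CEig (g : End ℝ U) (α β : ℝ) : Prop :=
  ∃ u v : U, (u ≠ 0 ∨ v ≠ 0) ∧ g u = α • u - β • v ∧ g v = β • u + α • v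

/-- `x` kills the multilinear form `t`. -/
def Kills {k : ℕ} (x : End ℝ U) (t : MultilinearMap ℝ (fun _ : Fin k => U) ℝ) : Prop :=
  ∀ v : Fin k → U, ∑ j, t (Function.update v j (x (v j))) = 0

/-- `(e, f)` is a hyperbolic pair. -/
def Hyp (B : U →ₗ[ℝ] U →ₗ[ℝ] ℝ) (e f : U) : Prop := B e e = 0 ∧ B f f = 0 ∧ B e f = 1

/-- Two orthogonal hyperbolic pairs with negative definite orthogonal complement. -/
def Hyp2 (B : U →ₗ[ℝ] U →ₗ[ℝ] ℝ) (e₁ f₁ e₂ f₂ : U) : Prop :=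
  (∀ u v, B u v = B v u) ∧ Hyp B e₁ f₁ ∧ Hyp B e₂ f₂ ∧
  B e₁ e₂ = 0 ∧ B e₁ f₂ = 0 ∧ B f₁ e₂ = 0 ∧ B f₁ f₂ = 0 ∧
  ∀ v, v ≠ 0 → B e₁ v = 0 → B f₁ v = 0 → B e₂ v = 0 → B f₂ v = 0 → B v v < 0

/-- The data of the main theorem: `n ⊆ h` inside `so(B)`. -/
structure Dat (B : U →ₗ[ℝ] U →ₗ[ℝ] ℝ) (h n : Submodule ℝ (End ℝ U)) : Prop where
  sig : Sig2 B
  skew : ∀ y ∈ h, Skew B y
  sub : n ≤ h
  lie : ∀ x ∈ h, ∀ y ∈ h, x * y - y * x ∈ h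
  ideal : ∀ x ∈ h, ∀ y ∈ n, x * y - y * x ∈ n
  irr : CIrr (h : Set (End ℝ U))
  re : ∀ P : U →ₗ[ℝ] U →ₗ[ℝ] ℝ, IsPos P → ∀ y₁ y₂ : End ℝ U, SymOp P y₁ → Skew P y₂ →
    y₁ * y₂ = y₂ * y₁ → y₁ + y₂ ∈ h → y₁ ∈ n

end ops

/-! ### Statements -/

/-- (LIE) -/
def S_lie : Prop := ∀ (V : Type) [AddCommGroup V] [Module ℝ V] (k : ℕ)
  (t : MultilinearMap ℝ (fun _ : Fin k => V) ℝ) (x y : End ℝ V),
  Kills x t → Kills y t → Kills (x * y - y * x) t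

/-- (RE) -/
def S_re : Prop := ∀ (V : Type) [AddCommGroup V] [Module ℝ V] [FiniteDimensional ℝ V]
  (P : V →ₗ[ℝ] V →ₗ[ℝ] ℝ), IsPos P → ∀ y₁ y₂ : End ℝ V, SymOp P y₁ → Skew P y₂ →
  y₁ * y₂ = y₂ * y₁ → ∀ (k : ℕ) (t : MultilinearMap ℝ (fun _ : Fin k => V) ℝ),
  Kills (y₁ + y₂) t → Kills y₁ t

/-- (LOG) -/
def S_log : Prop := ∀ (n : ℕ) (g : (Fin n → ℝ) ≃ₗ[ℝ] (Fin n → ℝ)),
  ∃ x : End ℝ (Fin n → ℝ), Diag x ∧
    (∀ (k : ℕ) (t : MultilinearMap ℝ (fun _ : Fin k => (Fin n → ℝ)) ℝ),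
      (∀ v, t (fun j => g (v j)) = t v) → Kills x t) ∧
    (∀ α β : ℝ, CEig (g : End ℝ (Fin n → ℝ)) α β → α ^ 2 + β ^ 2 ≠ 1 → x ≠ 0) ∧
    (∀ M : Submodule ℝ (Fin n → ℝ), (∀ v ∈ M, g v ∈ M) → ∀ v ∈ M, x v ∈ M)

/-- the complexification of a real operator -/
def cx {n : ℕ} (x : End ℝ (Fin n → ℝ)) : End ℂ (Fin n → ℂ) :=
  Matrix.toLin' ((LinearMap.toMatrix' x).map (fun a : ℝ => (a : ℂ)))

/-- (LOGQ) -/
def S_logQ : Prop := ∀ (n : ℕ) (g : (Fin n → ℝ) ≃ₗ[ℝ] (Fin n → ℝ)),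
  ∃ x : End ℝ (Fin n → ℝ), Diag x ∧
    (∀ M : Submodule ℝ (Fin n → ℝ), (∀ v ∈ M, g v ∈ M) → ∀ v ∈ M, x v ∈ M) ∧
    ∀ z : ℂ, ∀ v ∈ End.maxGenEigenspace (cx (g : End ℝ (Fin n → ℝ))) z,
      cx x v = ((Real.log ‖z‖ : ℝ) : ℂ) • v

/-- (LOGT) -/
def S_logT : Prop := ∀ (W : Type) [AddCommGroup W] [Module ℂ W] (g : End ℂ W) (k : ℕ)
  (t : MultilinearMap ℂ (fun _ : Fin k => W) ℂ), (∀ v, t (fun j => g (v j)) = t v) →
  ∀ (z : Fin k → ℂ) (v : Fin k → W), (∀ j, v j ∈ End.maxGenEigenspace g (z j)) →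
  ∏ j, z j ≠ 1 → t v = 0

/-- (EXP) -/
def S_exp : Prop := ∀ (n : ℕ) (y : End ℝ (Fin n → ℝ)), ∃ E : ℝ → End ℝ (Fin n → ℝ),
  E 0 = 1 ∧ (∀ s, E s * E (-s) = 1) ∧
  (∀ s v, HasDerivAt (fun s => E s v) (y (E s v)) s) ∧
  (∀ M : Submodule ℝ (Fin n → ℝ), (∀ v ∈ M, y v ∈ M) → ∀ s, ∀ v ∈ M, E s v ∈ M) ∧
  (∀ (k : ℕ) (t : MultilinearMap ℝ (fun _ : Fin k => (Fin n → ℝ)) ℝ), Kills y t →
    ∀ s v, t (fun j => E s (v j)) = t v)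

/-- (TR) -/
def S_tr : Prop := ∀ (U : Type) [AddCommGroup U] [Module ℝ U] [FiniteDimensional ℝ U]
  (g : End ℝ U), (∀ α β : ℝ, CEig g α β → α ^ 2 + β ^ 2 = 1) →
  |LinearMap.trace ℝ U g| ≤ finrank ℝ U

/-- (DENS) -/
def S_dens : Prop := ∀ (U : Type) [AddCommGroup U] [Module ℝ U] [FiniteDimensional ℝ U]
  (A : Subalgebra ℝ (End ℝ U)), CIrr (A : Set (End ℝ U)) → A = ⊤

/-- (INNER) -/
def S_inner : Prop := ∀ (m : ℕ) (G : Subgroup (GL (Fin m) ℝ)) (C : ℝ),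
  (∀ g ∈ G, ∀ i j, |(g : Matrix (Fin m) (Fin m) ℝ) i j| ≤ C) →
  ∃ P : Matrix (Fin m) (Fin m) ℝ, P.PosDef ∧
    ∀ g ∈ G, (g : Matrix (Fin m) (Fin m) ℝ).transpose * P * (g : Matrix (Fin m) (Fin m) ℝ) = P

/-- (COMP) -/
def S_comp : Prop := ∀ (U : Type) [AddCommGroup U] [Module ℝ U] [FiniteDimensional ℝ U]
  (G : Set (End ℝ U)), 1 ∈ G → (∀ g ∈ G, ∀ g' ∈ G, g * g' ∈ G) →
  (∀ g ∈ G, ∃ g' ∈ G, g * g' = 1 ∧ g' * g = 1) → CIrr G →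
  (∀ g ∈ G, ∀ α β : ℝ, CEig g α β → α ^ 2 + β ^ 2 = 1) →
  ∀ B : U →ₗ[ℝ] U →ₗ[ℝ] ℝ, (∀ u v, B u v = B v u) → (∀ g ∈ G, ∀ u v, B (g u) (g v) = B u v) →
  ¬ ((∃ u, 0 < B u u) ∧ ∃ u, B u u < 0)

/-- The set `h` of operators acts irreducibly on the complexification of the subspace `U`. -/
def CIrrOn {V : Type} [AddCommGroup V] [Module ℝ V] (h : Set (End ℝ V)) (U : Submodule ℝ V) :
    Prop :=
  ∀ M : Submodule ℝ (V × V), (∀ p ∈ M, p.1 ∈ U ∧ p.2 ∈ U) → JStable M → OpStable h M →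
    M = ⊥ ∨ ∀ u ∈ U, ∀ v ∈ U, ((u, v) : V × V) ∈ M

/-- (HYP) -/
def S_hyp : Prop := ∀ (n : ℕ) (h : Submodule ℝ (End ℝ (Fin n → ℝ)))
  (B : (Fin n → ℝ) →ₗ[ℝ] (Fin n → ℝ) →ₗ[ℝ] ℝ) (U : Submodule ℝ (Fin n → ℝ)),
  (∀ y ∈ h, ∀ u ∈ U, y u ∈ U) → (∀ u v, B u v = B v u) → (∀ y ∈ h, Skew B y) →
  CIrrOn (h : Set (End ℝ (Fin n → ℝ))) U → (∃ u ∈ U, 0 < B u u) → (∃ u ∈ U, B u u < 0) →
  ∃ g : (Fin n → ℝ) ≃ₗ[ℝ] (Fin n → ℝ),
    (∀ (k : ℕ) (t : MultilinearMap ℝ (fun _ : Fin k => (Fin n → ℝ)) ℝ),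
      (∀ y ∈ h, Kills y t) → ∀ v, t (fun j => g (v j)) = t v) ∧
    (∀ M : Submodule ℝ (Fin n → ℝ), (∀ y ∈ h, ∀ v ∈ M, y v ∈ M) → ∀ v ∈ M, g v ∈ M) ∧
    ∃ α β : ℝ, α ^ 2 + β ^ 2 ≠ 1 ∧ CEig (g : End ℝ (Fin n → ℝ)) α β

/-- (GRADE) -/
def S_grade : Prop := ∀ (U : Type) [AddCommGroup U] [Module ℝ U] [FiniteDimensional ℝ U]
  (x : End ℝ U) (h p : Submodule ℝ (End ℝ U)), Diag x → (∀ y ∈ h, x * y - y * x ∈ h) →
  (∀ α : ℝ, ∀ y ∈ h, Hom x α y → y ∈ p) → h ≤ p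

/-- (CLOS) -/
def S_clos : Prop := ∀ (U : Type) [AddCommGroup U] [Module ℝ U] [FiniteDimensional ℝ U]
  (x : End ℝ U) (h : Submodule ℝ (End ℝ U)), Diag x → x ∈ h →
  (∀ y ∈ h, ∀ z ∈ h, y * z - z * y ∈ h) → CIrr (h : Set (End ℝ U)) →
  ∀ L M : Submodule ℝ (U × U), JStable L → JStable M → L ≤ M → L ≠ ⊥ →
  (∀ α : ℝ, 0 < α → ∀ y ∈ h, Hom x α y → ∀ p ∈ L, y p.1 = 0 ∧ y p.2 = 0) →
  (∀ α : ℝ, α ≤ 0 → ∀ y ∈ h, Hom x α y → ∀ p ∈ M, ((y p.1, y p.2) : U × U) ∈ M) →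
  M = ⊤

/-- (STRUCT) -/
def S_struct : Prop := ∀ (U : Type) [AddCommGroup U] [Module ℝ U] [FiniteDimensional ℝ U]
  (B : U →ₗ[ℝ] U →ₗ[ℝ] ℝ), Sig2 B → ∀ x : End ℝ U, x ≠ 0 → Skew B x → Diag x →
  (∃ (a : ℝ) (e f : U), a ≠ 0 ∧ Hyp B e f ∧ x = a • wedge B f e) ∨
  ∃ (a b : ℝ) (e₁ f₁ e₂ f₂ : U), 0 < b ∧ b ≤ a ∧ Hyp2 B e₁ f₁ e₂ f₂ ∧
    x = a • wedge B f₁ e₁ + b • wedge B f₂ e₂

/-- (REH) -/
def S_reH : Prop := ∀ (U : Type) [AddCommGroup U] [Module ℝ U] [FiniteDimensional ℝ U]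
  (B : U →ₗ[ℝ] U →ₗ[ℝ] ℝ) (h n : Submodule ℝ (End ℝ U)), Dat B h n →
  ∀ e₁ f₁ e₂ f₂ : U, Hyp2 B e₁ f₁ e₂ f₂ → ∀ y ∈ h, ∀ α β : ℝ,
  y e₁ = α • e₁ → y f₁ = -(α • f₁) → y e₂ = β • e₂ → y f₂ = -(β • f₂) →
  α • wedge B f₁ e₁ + β • wedge B f₂ e₂ ∈ n

/-- (RK) -/
def S_rk : Prop := ∀ (U : Type) [AddCommGroup U] [Module ℝ U] [FiniteDimensional ℝ U]
  (B : U →ₗ[ℝ] U →ₗ[ℝ] ℝ) (h n : Submodule ℝ (End ℝ U)), Dat B h n →
  ∀ e f : U, Hyp B e f → wedge B f e ∈ n → ∀ y : End ℝ U, Skew B y → y ∈ n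

/-- (EQ) -/
def S_eq : Prop := ∀ (U : Type) [AddCommGroup U] [Module ℝ U] [FiniteDimensional ℝ U]
  (B : U →ₗ[ℝ] U →ₗ[ℝ] ℝ) (h n : Submodule ℝ (End ℝ U)), Dat B h n →
  ∀ e₁ f₁ e₂ f₂ : U, Hyp2 B e₁ f₁ e₂ f₂ → wedge B f₁ e₁ + wedge B f₂ e₂ ∈ n →
  ∃ e f : U, Hyp B e f ∧ wedge B f e ∈ n

/-- `z` is orthogonal to the four vectors. -/
def Perp {U : Type} [AddCommGroup U] [Module ℝ U] (B : U →ₗ[ℝ] U →ₗ[ℝ] ℝ) (e₁ f₁ e₂ f₂ z : U) :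
    Prop :=
  B e₁ z = 0 ∧ B f₁ z = 0 ∧ B e₂ z = 0 ∧ B f₂ z = 0

/-- (NEY) -/
def S_neY : Prop := ∀ (U : Type) [AddCommGroup U] [Module ℝ U] [FiniteDimensional ℝ U]
  (B : U →ₗ[ℝ] U →ₗ[ℝ] ℝ) (h n : Submodule ℝ (End ℝ U)), Dat B h n →
  ∀ e₁ f₁ e₂ f₂ : U, Hyp2 B e₁ f₁ e₂ f₂ → ∀ a b : ℝ, 0 < b → b < a →
  a • wedge B f₁ e₁ + b • wedge B f₂ e₂ ∈ n →
  ∃ z : U, Perp B e₁ f₁ e₂ f₂ z ∧ (z = 0 ∨ a = 2 * b) ∧
    wedge B f₁ e₂ + wedge B f₂ z ∈ h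

/-- (NEM) -/
def S_neM : Prop := ∀ (U : Type) [AddCommGroup U] [Module ℝ U] [FiniteDimensional ℝ U]
  (B : U →ₗ[ℝ] U →ₗ[ℝ] ℝ) (h n : Submodule ℝ (End ℝ U)), Dat B h n →
  ∀ e₁ f₁ e₂ f₂ : U, Hyp2 B e₁ f₁ e₂ f₂ → ∀ b : ℝ, 0 < b →
  (2 * b) • wedge B f₁ e₁ + b • wedge B f₂ e₂ ∈ n →
  (∀ w, Perp B e₁ f₁ e₂ f₂ w → wedge B f₁ w ∈ h →
    ∃ κ : ℝ, κ • wedge B f₁ e₂ + wedge B f₂ w ∈ h) →
  ∀ z, Perp B e₁ f₁ e₂ f₂ z → ∃ κ : ℝ, κ • wedge B f₁ e₂ + wedge B f₂ z ∈ h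

/-- (NE) -/
def S_ne : Prop := ∀ (U : Type) [AddCommGroup U] [Module ℝ U] [FiniteDimensional ℝ U]
  (B : U →ₗ[ℝ] U →ₗ[ℝ] ℝ) (h n : Submodule ℝ (End ℝ U)), Dat B h n → finrank ℝ U ≠ 5 →
  ∀ e₁ f₁ e₂ f₂ : U, Hyp2 B e₁ f₁ e₂ f₂ → ∀ a b : ℝ, 0 < b → b < a →
  a • wedge B f₁ e₁ + b • wedge B f₂ e₂ ∈ n →
  ∃ e f : U, Hyp B e f ∧ wedge B f e ∈ n

/-- (CORE) -/
def S_core : Prop := ∀ (U : Type) [AddCommGroup U] [Module ℝ U] [FiniteDimensional ℝ U]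
  (B : U →ₗ[ℝ] U →ₗ[ℝ] ℝ) (h n : Submodule ℝ (End ℝ U)), Dat B h n → finrank ℝ U ≠ 5 →
  (∃ x ∈ n, x ≠ 0 ∧ Diag x) → ∀ y : End ℝ U, Skew B y → y ∈ n

/-! ### K3 surfaces -/

/-- the bilinear form of a rational matrix -/
def bil {r : ℕ} (B : Matrix (Fin r) (Fin r) ℚ) (u v : Fin r → ℂ) : ℂ :=
  ∑ i, ∑ j, u i * (B i j : ℂ) * v j

/-- complex conjugate of a vector -/
def cj {r : ℕ} (v : Fin r → ℂ) : Fin r → ℂ := fun i => (starRingEnd ℂ) (v i)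

/-- the image of a complex vector under a rational matrix -/
def app {r : ℕ} (x : Matrix (Fin r) (Fin r) ℚ) (v : Fin r → ℂ) : Fin r → ℂ :=
  fun i => ∑ j, (x i j : ℂ) * v j

/-- The de Rham-Betti structure on the transcendental part `T` (of rank `r`) of `H^2(S)(1)`. -/
structure K3Type (r : ℕ) where
  /-- the intersection form -/
  B : Matrix (Fin r) (Fin r) ℚ
  symm : ∀ i j, B i j = B j i
  /-- the class of the holomorphic two-form -/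
  ω : Fin r → ℂ
  iso : bil B ω ω = 0
  pos : 0 < (bil B ω (cj ω)).re
  neg : ∀ v : Fin r → ℝ, v ≠ 0 → bil B (fun i => (v i : ℂ)) ω = 0 →
    (bil B (fun i => (v i : ℂ)) (fun i => (v i : ℂ))).re < 0
  /-- the columns of `D` are a basis of the algebraic de Rham cohomology -/
  D : Matrix (Fin r) (Fin r) ℂ
  det : D.det ≠ 0
  alg : ∀ i j, IsAlgebraic ℚ (bil B (fun a => D a i) (fun a => D a j))

variable {r : ℕ} (X : K3Type r)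

/-- A rational `k`-linear form on `T` is a de Rham-Betti class: its values on de Rham vectors are
algebraic. -/
def K3Type.IsDRB {k : ℕ} (t : (Fin k → Fin r) → ℚ) : Prop :=
  ∀ J : Fin k → Fin r, IsAlgebraic ℚ (∑ I : Fin k → Fin r, (t I : ℂ) * ∏ j, X.D (I j) (J j))

/-- The Lie algebra of the de Rham-Betti group of `T`: rational matrices killing all de Rham-Betti
classes on all tensor powers of `T`. -/
def K3Type.lie : Set (Matrix (Fin r) (Fin r) ℚ) :=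
  {x | ∀ (k : ℕ) (t : (Fin k → Fin r) → ℚ), X.IsDRB t → ∀ I : Fin k → Fin r,
    ∑ j, ∑ l, x l (I j) * t (Function.update I j l) = 0}

/-- the Lie algebra acts reductively on the complexification of `T` -/
def K3Type.Reductive : Prop := ∀ M : Submodule ℂ (Fin r → ℂ), (∀ x ∈ X.lie, ∀ v ∈ M, app x v ∈ M) →
  ∃ M' : Submodule ℂ (Fin r → ℂ), (∀ x ∈ X.lie, ∀ v ∈ M', app x v ∈ M') ∧ IsCompl M M'

/-- Hodge endomorphisms of `T`. -/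
def K3Type.HodgeEnd (P : Matrix (Fin r) (Fin r) ℚ) : Prop :=
  (∃ c : ℂ, app P X.ω = c • X.ω) ∧
  ∀ v, bil X.B v X.ω = 0 → bil X.B v (cj X.ω) = 0 →
    bil X.B (app P v) X.ω = 0 ∧ bil X.B (app P v) (cj X.ω) = 0

/-- a complex matrix commuting with the Lie algebra is a combination of Hodge endomorphisms -/
def K3Type.EndHodge : Prop := ∀ P : Matrix (Fin r) (Fin r) ℂ,
  (∀ x ∈ X.lie, P * x.map (fun q : ℚ => (q : ℂ)) = x.map (fun q : ℚ => (q : ℂ)) * P) →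
  P ∈ Submodule.span ℂ ((fun Q : Matrix (Fin r) (Fin r) ℚ => Q.map (fun q : ℚ => (q : ℂ))) ''
    {Q | X.HodgeEnd Q})

/-- Hodge endomorphisms are de Rham-Betti (Deligne, Andre) -/
def K3Type.Deligne : Prop := ∀ P, X.HodgeEnd P → ∀ i j,
  IsAlgebraic ℚ (bil X.B (app P (fun a => X.D a i)) (fun a => X.D a j))

/-- Hodge endomorphisms are self-adjoint (totally real multiplication) -/
def K3Type.RealMult : Prop := ∀ P, X.HodgeEnd P → ∀ u v, bil X.B (app P u) v = bil X.B u (app P v)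

/-- the real eigenspace of the Hodge endomorphisms which contains the two-form -/
def K3Type.U : Submodule ℝ (Fin r → ℝ) where
  carrier := {v | ∀ P : Matrix (Fin r) (Fin r) ℚ, X.HodgeEnd P → ∀ c : ℝ,
    app P X.ω = (c : ℂ) • X.ω → ∀ i, ∑ j, (P i j : ℝ) * v j = c * v i}
  zero_mem' := by
    intro P _ c _ i
    simp
  add_mem' := by
    intro v w hv hw P hP c hc i
    have h1 := hv P hP c hc i
    have h2 := hw P hP c hc i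
    simp only [Pi.add_apply, mul_add, Finset.sum_add_distrib, h1, h2]
  smul_mem' := by
    intro a v hv P hP c hc i
    have h1 := hv P hP c hc i
    simp only [Pi.smul_apply, smul_eq_mul]
    rw [show c * (a * v i) = a * (c * v i) by ring, ← h1, Finset.mul_sum]
    exact Finset.sum_congr rfl fun j _ => by ring

/-- `v` has Hodge type `p`: `1` for multiples of the two-form, `-1` for its conjugate, `0` for
vectors orthogonal to both. -/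
def K3Type.HType (v : Fin r → ℂ) (p : ℤ) : Prop :=
  (p = 1 ∧ v = X.ω) ∨ (p = -1 ∧ v = cj X.ω) ∨ (p = 0 ∧ bil X.B v X.ω = 0 ∧ bil X.B v (cj X.ω) = 0)

/-- value of a form on complex vectors -/
def ev {ι : Type} [Fintype ι] {k : ℕ} (t : (Fin k → ι) → ℚ) (v : Fin k → ι → ℂ) : ℂ :=
  ∑ I : Fin k → ι, (t I : ℂ) * ∏ j, v j (I j)

/-- A rational `k`-linear form on `T` is a Hodge class. -/
def K3Type.IsHodge {k : ℕ} (t : (Fin k → Fin r) → ℚ) : Prop :=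
  ∀ (v : Fin k → Fin r → ℂ) (p : Fin k → ℤ), (∀ j, X.HType (v j) (p j)) → ∑ j, p j ≠ 0 →
    ev t v = 0

/-- products of the intersection form -/
def pairs {r : ℕ} (B : Matrix (Fin r) (Fin r) ℚ) (k : ℕ) : Submodule ℚ ((Fin k → Fin r) → ℚ) :=
  Submodule.span ℚ {s | ∃ σ : Fin k → Fin k, (∀ j, σ (σ j) = j) ∧ (∀ j, σ j ≠ j) ∧
    ∀ I, s I = ∏ j with j < σ j, B (I j) (I (σ j))}

/-- the real multilinear form of a rational form -/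
def formR {r k : ℕ} (t : (Fin k → Fin r) → ℚ) :
    MultilinearMap ℝ (fun _ : Fin k => (Fin r → ℝ)) ℝ :=
  ∑ I : Fin k → Fin r, (t I : ℝ) • (MultilinearMap.mkPiAlgebra ℝ (Fin k) ℝ).compLinearMap
    (fun j => LinearMap.proj (I j))

theorem formR_apply {r k : ℕ} (t : (Fin k → Fin r) → ℚ) (v : Fin k → Fin r → ℝ) :
    formR t v = ∑ I : Fin k → Fin r, (t I : ℝ) * ∏ j, v j (I j) := by
  simp [formR]

/-- the real bilinear form of a rational matrix -/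
def bilR {r : ℕ} (B : Matrix (Fin r) (Fin r) ℚ) : (Fin r → ℝ) →ₗ[ℝ] (Fin r → ℝ) →ₗ[ℝ] ℝ :=
  Matrix.toLinearMap₂' ℝ (B.map (fun q : ℚ => (q : ℝ)))

theorem bilR_apply {r : ℕ} (B : Matrix (Fin r) (Fin r) ℚ) (u v : Fin r → ℝ) :
    bilR B u v = ∑ i, ∑ j, u i * (B i j : ℝ) * v j := by
  simp [bilR, Matrix.toLinearMap₂'_apply, mul_comm, mul_left_comm]

/-- the real Lie algebra: operators killing all de Rham-Betti classes -/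
def K3Type.hT : Submodule ℝ (End ℝ (Fin r → ℝ)) where
  carrier := {x | ∀ (k : ℕ) (t : (Fin k → Fin r) → ℚ), X.IsDRB t → Kills x (formR t)}
  zero_mem' := by
    intro k t _ v
    simp only [LinearMap.zero_apply]
    exact Finset.sum_eq_zero fun j _ => (formR t).map_update_zero v j
  add_mem' := by
    intro x y hx hy k t ht v
    have h1 := hx k t ht v
    have h2 := hy k t ht v
    simp only [LinearMap.add_apply, MultilinearMap.map_update_add, Finset.sum_add_distrib, h1, h2,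
      add_zero]
  smul_mem' := by
    intro a x hx k t ht v
    have h1 := hx k t ht v
    simp only [LinearMap.smul_apply, MultilinearMap.map_update_smul, ← Finset.smul_sum, h1,
      smul_zero]

/-- (IRR) -/
def S_irr : Prop := ∀ (r : ℕ) (X : K3Type r), X.Reductive → X.EndHodge → X.Deligne → X.RealMult →
  CIrrOn (X.hT : Set (End ℝ (Fin r → ℝ))) X.U ∧ (∀ y ∈ X.hT, ∀ u ∈ X.U, y u ∈ X.U)

/-- (HODGE) -/
def S_hodge : Prop := ∀ (r : ℕ) (X : K3Type r),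
  (∀ y : End ℝ (Fin r → ℝ), Skew (bilR X.B) y →
    (∀ v, (∀ u ∈ X.U, bilR X.B u v = 0) → y v = 0) → y ∈ X.hT) →
  ∀ (k : ℕ) (t : (Fin k → Fin r) → ℚ), X.IsDRB t → X.IsHodge t

/-- (FFT) -/
def S_fft : Prop := ∀ (r k : ℕ), k < r → ∀ B : Matrix (Fin r) (Fin r) ℚ,
  (∀ i j, B i j = B j i) → B.det ≠ 0 → ∀ t : (Fin k → Fin r) → ℚ,
  (∀ y : End ℝ (Fin r → ℝ), Skew (bilR B) y → Kills y (formR t)) → t ∈ pairs B k

/-! ### Powers of K3 surfaces -/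

/-- the period matrix of the total cohomology (`s` algebraic classes, rank `r` transcendental
part) -/
def K3Type.D' (s : ℕ) : Matrix (Fin s ⊕ Fin r) (Fin s ⊕ Fin r) ℂ :=
  Matrix.fromBlocks 1 0 0 X.D

/-- a class on `S^m` is de Rham-Betti -/
def K3Type.IsDRB' {s m : ℕ} (t : (Fin m → Fin s ⊕ Fin r) → ℚ) : Prop :=
  ∀ J : Fin m → Fin s ⊕ Fin r,
    IsAlgebraic ℚ (∑ I : Fin m → Fin s ⊕ Fin r, (t I : ℂ) * ∏ j, X.D' s (I j) (J j))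

/-- Hodge type of a vector in the total cohomology of `S` -/
def K3Type.HType' {s : ℕ} (v : Fin s ⊕ Fin r → ℂ) (p : ℤ) : Prop :=
  (p = 1 ∧ v = Sum.elim (fun _ => 0) X.ω) ∨ (p = -1 ∧ v = Sum.elim (fun _ => 0) (cj X.ω)) ∨
  (p = 0 ∧ bil X.B (v ∘ Sum.inr) X.ω = 0 ∧ bil X.B (v ∘ Sum.inr) (cj X.ω) = 0)

/-- a class on `S^m` is a Hodge class -/
def K3Type.IsHodge' {s m : ℕ} (t : (Fin m → Fin s ⊕ Fin r) → ℚ) : Prop :=
  ∀ (v : Fin m → Fin s ⊕ Fin r → ℂ) (p : Fin m → ℤ), (∀ j, X.HType' (v j) (p j)) →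
    ∑ j, p j ≠ 0 → ev t v = 0

/-- products of algebraic classes of `S` on some of the factors and of the transcendental part of
the diagonal on pairs of factors -/
def K3Type.algClasses (s m : ℕ) : Submodule ℚ ((Fin m → Fin s ⊕ Fin r) → ℚ) :=
  Submodule.span ℚ {t | ∃ (σ : Fin m → Fin m) (ν : Fin m → Fin s → ℚ), (∀ j, σ (σ j) = j) ∧
    ∀ I, t I = (∏ j with σ j = j, Sum.elim (ν j) (fun _ => 0) (I j)) *
      ∏ j with j < σ j, Matrix.fromBlocks 0 0 0 X.B (I j) (I (σ j))}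

/-- (MAIN) -/
def S_main : Prop := ∀ (r : ℕ) (X : K3Type r), X.Reductive → X.EndHodge → X.Deligne →
  X.RealMult → finrank ℝ X.U ≠ 5 →
  (∀ y : End ℝ (Fin r → ℝ), Skew (bilR X.B) y →
    (∀ v, (∀ u ∈ X.U, bilR X.B u v = 0) → y v = 0) → y ∈ X.hT)

/-- (EXT) -/
def S_ext : Prop := ∀ (r s : ℕ) (X : K3Type r),
  ((∀ (k : ℕ) (t : (Fin k → Fin r) → ℚ), X.IsDRB t → X.IsHodge t) →
    ∀ (m : ℕ) (t : (Fin m → Fin s ⊕ Fin r) → ℚ), X.IsDRB' t → X.IsHodge' t) ∧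
  ((∀ (k : ℕ), k < r → ∀ (t : (Fin k → Fin r) → ℚ), X.IsDRB t → t ∈ pairs X.B k) →
    ∀ (m : ℕ) (t : (Fin m → Fin s ⊕ Fin r) → ℚ), X.IsDRB' t →
      (∀ I, t I ≠ 0 → (univ.filter fun j => (I j).isRight = true).card < r) →
      t ∈ X.algClasses s m)

end

end Pool.Agent.W544.K3
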