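import Pool.Agent.W544.K3.MainAbs

open Module Finset

namespace Pool.Agent.W544.K3

noncomputable section

variable {r : ℕ}

/-- real part of a vector -/
def reV (v : Fin r → ℂ) : Fin r → ℝ := fun i => (v i).re

/-- imaginary part of a vector -/
def imV (v : Fin r → ℂ) : Fin r → ℝ := fun i => (v i).im

/-- real vector as a complex vector -/
def toC (v : Fin r → ℝ) : Fin r → ℂ := fun i => (v i : ℂ)

theorem eq_re_im (v : Fin r → ℂ) : v = toC (reV v) + Complex.I • toC (imV v) := by
  funext i
  simp only [toC, reV, imV, Pi.add_apply, Pi.smul_apply, smul_eq_mul]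
  rw [mul_comm Complex.I]
  exact (Complex.re_add_im (v i)).symm

theorem cj_eq (v : Fin r → ℂ) : cj v = toC (reV v) - Complex.I • toC (imV v) := by
  funext i
  simp only [toC, reV, imV, cj, Pi.sub_apply, Pi.smul_apply, smul_eq_mul]
  apply Complex.ext <;> simp

theorem bil_toC (B : Matrix (Fin r) (Fin r) ℚ) (u v : Fin r → ℝ) :
    bil B (toC u) (toC v) = ((bilR B u v : ℝ) : ℂ) := by
  rw [bilR_apply]
  simp only [bil, toC]
  push_cast
  rfl

theorem bil_add_left (B : Matrix (Fin r) (Fin r) ℚ) (u u' v : Fin r → ℂ) :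
    bil B (u + u') v = bil B u v + bil B u' v := by
  simp only [bil, Pi.add_apply, add_mul, Finset.sum_add_distrib]

theorem bil_add_right (B : Matrix (Fin r) (Fin r) ℚ) (u v v' : Fin r → ℂ) :
    bil B u (v + v') = bil B u v + bil B u v' := by
  simp only [bil, Pi.add_apply, mul_add, Finset.sum_add_distrib]

theorem bil_smul_left (B : Matrix (Fin r) (Fin r) ℚ) (a : ℂ) (u v : Fin r → ℂ) :
    bil B (a • u) v = a * bil B u v := by
  simp only [bil, Pi.smul_apply, smul_eq_mul, Finset.mul_sum, mul_assoc]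

theorem bil_smul_right (B : Matrix (Fin r) (Fin r) ℚ) (a : ℂ) (u v : Fin r → ℂ) :
    bil B u (a • v) = a * bil B u v := by
  simp only [bil, Pi.smul_apply, smul_eq_mul, Finset.mul_sum]
  exact Finset.sum_congr rfl fun i _ => Finset.sum_congr rfl fun j _ => by ring

theorem bil_sub_right (B : Matrix (Fin r) (Fin r) ℚ) (u v v' : Fin r → ℂ) :
    bil B u (v - v') = bil B u v - bil B u v' := by
  simp only [bil, Pi.sub_apply, mul_sub, Finset.sum_sub_distrib]

variable (X : K3Type r)

theorem bilR_symm (u v : Fin r → ℝ) : bilR X.B u v = bilR X.B v u := by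
  rw [bilR_apply, bilR_apply, Finset.sum_comm]
  exact Finset.sum_congr rfl fun i _ => Finset.sum_congr rfl fun j _ => by
    rw [X.symm j i]; ring

theorem omega_facts : bilR X.B (imV X.ω) (imV X.ω) = bilR X.B (reV X.ω) (reV X.ω) ∧
    bilR X.B (reV X.ω) (imV X.ω) = 0 ∧ 0 < bilR X.B (reV X.ω) (reV X.ω) := by
  obtain ⟨p, hp⟩ : ∃ p, p = reV X.ω := ⟨_, rfl⟩
  obtain ⟨q, hq⟩ : ∃ q, q = imV X.ω := ⟨_, rfl⟩
  have hω : X.ω = toC p + Complex.I • toC q := by rw [hp, hq]; exact eq_re_im _
  have hc : cj X.ω = toC p - Complex.I • toC q := by rw [hp, hq]; exact cj_eq _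
  rw [← hp, ← hq]
  have h1 := X.iso
  have h2 := X.pos
  rw [hc] at h2
  rw [hω] at h1 h2
  simp only [bil_add_left, bil_add_right, bil_sub_right, bil_smul_left, bil_smul_right,
    bil_toC, bilR_symm X q p] at h1 h2
  have h1r := congrArg Complex.re h1
  have h1i := congrArg Complex.im h1
  simp at h1r h1i h2
  refine ⟨by linarith, by linarith, by linarith⟩

theorem re_mem : reV X.ω ∈ X.U := by
  intro P _ c hc i
  have h1 := congrFun hc i
  have h2 := congrArg Complex.re h1
  simp only [app, Pi.smul_apply, smul_eq_mul, Complex.re_sum, Complex.mul_re,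
    Complex.ratCast_re, Complex.ratCast_im, Complex.ofReal_re, Complex.ofReal_im, zero_mul,
    sub_zero] at h2
  simp only [reV]
  exact h2

theorem im_mem : imV X.ω ∈ X.U := by
  intro P _ c hc i
  have h1 := congrFun hc i
  have h2 := congrArg Complex.im h1
  simp only [app, Pi.smul_apply, smul_eq_mul, Complex.im_sum, Complex.mul_im,
    Complex.ratCast_re, Complex.ratCast_im, Complex.ofReal_re, Complex.ofReal_im, zero_mul,
    add_zero] at h2
  simp only [imV]
  exact h2

theorem neg_facts (v : Fin r → ℝ) (hv : v ≠ 0) (h1 : bilR X.B v (reV X.ω) = 0)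
    (h2 : bilR X.B v (imV X.ω) = 0) : bilR X.B v v < 0 := by
  have h3 : bil X.B (toC v) X.ω = 0 := by
    rw [eq_re_im X.ω, bil_add_right, bil_smul_right, bil_toC, bil_toC, h1, h2]
    simp
  have h4 := X.neg v hv h3
  have h5 : bil X.B (fun i => (v i : ℂ)) (fun i => (v i : ℂ)) = ((bilR X.B v v : ℝ) : ℂ) :=
    bil_toC X.B v v
  rw [h5, Complex.ofReal_re] at h4
  exact h4

/-- the intersection form as a form of degree two -/
def form2 (B : Matrix (Fin r) (Fin r) ℚ) : (Fin 2 → Fin r) → ℚ := fun I => B (I 0) (I 1)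

theorem sum_fin2 {M : Type*} [AddCommMonoid M] (f : (Fin 2 → Fin r) → M) :
    ∑ I, f I = ∑ i, ∑ j, f ![i, j] := by
  rw [← (finTwoArrowEquiv (Fin r)).symm.sum_comp, Fintype.sum_prod_type]
  rfl

theorem form2_drb : X.IsDRB (form2 X.B) := by
  intro J
  have h := X.alg (J 0) (J 1)
  convert h using 1
  rw [sum_fin2]
  simp only [bil, form2, Fin.prod_univ_two, Matrix.cons_val_zero, Matrix.cons_val_one]
  exact Finset.sum_congr rfl fun i _ => Finset.sum_congr rfl fun j _ => by ring

theorem formR_form2 (B : Matrix (Fin r) (Fin r) ℚ) (v : Fin 2 → Fin r → ℝ) :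
    formR (form2 B) v = bilR B (v 0) (v 1) := by
  rw [formR_apply, bilR_apply, sum_fin2]
  simp only [form2, Fin.prod_univ_two, Matrix.cons_val_zero, Matrix.cons_val_one]
  exact Finset.sum_congr rfl fun i _ => Finset.sum_congr rfl fun j _ => by ring

theorem skew_of_hT (y : End ℝ (Fin r → ℝ)) (hy : y ∈ X.hT) : Skew (bilR X.B) y := by
  intro u v
  have h := hy 2 (form2 X.B) (form2_drb X) ![u, v]
  rw [Fin.sum_univ_two, formR_form2, formR_form2] at h
  simpa using h

/-- **Main theorem**: all operators which are skew on `U` kill all de Rham-Betti classes. -/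
theorem main (hlog : S_log) (hhyp : S_hyp) (hlie : S_lie) (hre : S_re) (hcore : S_core)
    (hirr : S_irr) : S_main := by
  intro r X h1 h2 h3 h4 h5
  obtain ⟨hI, hst⟩ := hirr r X h1 h2 h3 h4
  obtain ⟨e1, e2, e3⟩ := omega_facts X
  exact main_abs hlog hhyp hlie hre hcore r X.hT
    (fun x hx k t ht => hx k (formR t) (fun y hy => hy k t ht))
    (bilR X.B) (bilR_symm X) (skew_of_hT X) X.U hst hI (reV X.ω) (imV X.ω) (re_mem X) (im_mem X)
    e3 e1 e2 (neg_facts X) h5

end

end Pool.Agent.W544.K3
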