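import Pool.Agent.W544.K3.Defs2
import Pool.Agent.W544.K3.Main

open Module Finset

namespace Pool.Agent.W544.K3

noncomputable section

/-! ### Abstract lemmas -/

section abs
variable {V : Type} [AddCommGroup V] [Module ℝ V] [FiniteDimensional ℝ V]

theorem isCompl_orth' {B : V →ₗ[ℝ] V →ₗ[ℝ] ℝ} {U : Submodule ℝ V} (hs : ∀ u v, B u v = B v u)
    (hU : ∀ u ∈ U, (∀ v ∈ U, B u v = 0) → u = 0) : IsCompl U (orth B U) := by
  have h1 : orth B U = LinearMap.BilinForm.orthogonal B U := by
    ext v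
    exact LinearMap.BilinForm.mem_orthogonal_iff.symm
  rw [h1]
  refine LinearMap.BilinForm.isCompl_orthogonal_of_restrict_nondegenerate ?_ ?_
  · intro u v huv
    rw [hs]; exact huv
  · constructor
    · intro u hu
      have := hU u u.2 (fun v hv => hu ⟨v, hv⟩)
      exact Subtype.ext this
    · intro u hu
      have := hU u u.2 (fun v hv => by rw [hs]; exact hu ⟨v, hv⟩)
      exact Subtype.ext this

/-- symmetric operators are diagonalisable -/
theorem diag_of_sym (P : V →ₗ[ℝ] V →ₗ[ℝ] ℝ) (hP : IsPos P) (y : End ℝ V) (hy : SymOp P y) :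
    Diag y := by
  classical
  let core : InnerProductSpace.Core ℝ V :=
    { inner := fun u v => P u v
      conj_inner_symm := fun u v => by simpa using hP.1 v u
      re_inner_nonneg := fun u => by
        by_cases hu : u = 0
        · simp [hu]
        · simpa using (hP.2 u hu).le
      add_left := fun u v w => by simp
      smul_left := fun u v r => by simp
      definite := fun u hu => by
        by_contra h0
        exact absurd hu (hP.2 u h0).ne' }
  let _ : NormedAddCommGroup V := @InnerProductSpace.Core.toNormedAddCommGroup ℝ V _ _ _ core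
  let _ : InnerProductSpace ℝ V := InnerProductSpace.ofCore core.toCore
  have hsym : LinearMap.IsSymmetric y := fun u v => hy u v
  have h1 := hsym.orthogonalComplement_iSup_eigenspaces_eq_bot
  exact (Submodule.orthogonal_eq_bot_iff).1 h1

/-- a diagonalisable operator which is skew for a form definite on a stable subspace vanishes
there -/
theorem diag_skew_zero {B : V →ₗ[ℝ] V →ₗ[ℝ] ℝ} {W : Submodule ℝ V} (x : End ℝ V) (hx : Diag x)
    (hW : ∀ w ∈ W, x w ∈ W) (hsk : Skew B x) (hneg : ∀ w ∈ W, w ≠ 0 → B w w < 0) :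
    ∀ w ∈ W, x w = 0 := by
  have h1 : W ≤ LinearMap.ker x := by
    have h2 : W = ⨆ μ : ℝ, W ⊓ End.eigenspace x μ := by
      have h3 := Submodule.inf_iSup_genEigenspace (f := x) (p := W) hW 1
      have h4 : (⨆ μ : ℝ, x.genEigenspace μ 1) = ⊤ := hx
      rw [h4, inf_top_eq] at h3
      exact h3
    rw [h2]
    refine iSup_le fun μ => ?_
    rintro v ⟨hv1, hv2⟩
    rw [SetLike.mem_coe, End.mem_eigenspace_iff] at hv2
    by_cases hv0 : v = 0
    · rw [hv0]; exact Submodule.zero_mem _
    have h5 := hsk v v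
    rw [hv2, map_smul, map_smul, LinearMap.smul_apply, smul_eq_mul] at h5
    have h6 := hneg v hv1 hv0
    have h7 : μ = 0 := by
      by_contra hμ
      have : μ * B v v = 0 := by linarith
      rcases mul_eq_zero.1 this with h8 | h8
      · exact hμ h8
      · exact absurd h8 h6.ne
    rw [LinearMap.mem_ker, hv2, h7, zero_smul]
  exact fun w hw => h1 hw

end abs

/-! ### Facts on products -/

section facts
variable {n N : ℕ} (X : Multi n N)

theorem m_symm (u v : Fin n → ℝ) : bilR X.B u v = bilR X.B v u := by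
  rw [bilR_apply, bilR_apply, Finset.sum_comm]
  exact Finset.sum_congr rfl fun i _ => Finset.sum_congr rfl fun j _ => by
    rw [X.symm j i]; ring

theorem m_block {i j : Fin N} (hij : i ≠ j) {u v : Fin n → ℝ} (hu : ∀ a, X.c a ≠ i → u a = 0)
    (hv : ∀ a, X.c a ≠ j → v a = 0) : bilR X.B u v = 0 := by
  rw [bilR_apply]
  refine Finset.sum_eq_zero fun a _ => Finset.sum_eq_zero fun b _ => ?_
  by_cases ha : X.c a = i
  · by_cases hb : X.c b = j
    · rw [X.Bblock a b (by rw [ha, hb]; exact hij)]; simp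
    · rw [hv b hb]; simp
  · rw [hu a ha]; simp

/-- the part of a vector in block `i` -/
def part (i : Fin N) (v : Fin n → ℝ) : Fin n → ℝ := fun a => if X.c a = i then v a else 0

theorem part_supp (i : Fin N) (v : Fin n → ℝ) : ∀ a, X.c a ≠ i → part X i v a = 0 := by
  intro a ha
  simp [part, ha]

theorem sum_part (v : Fin n → ℝ) : ∑ i, part X i v = v := by
  funext a
  simp [part, Finset.sum_apply]

theorem part_left (i : Fin N) (u v : Fin n → ℝ) (hu : ∀ a, X.c a ≠ i → u a = 0) :
    bilR X.B (part X i v) u = bilR X.B v u := by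
  conv_rhs => rw [← sum_part X v]
  rw [map_sum, LinearMap.sum_apply, Finset.sum_eq_single i]
  · intro j _ hj
    exact m_block X hj (part_supp X j v) hu
  · intro h; exact absurd (Finset.mem_univ i) h

theorem omega_facts2 (i : Fin N) :
    bilR X.B (imV (X.ω i)) (imV (X.ω i)) = bilR X.B (reV (X.ω i)) (reV (X.ω i)) ∧
    bilR X.B (reV (X.ω i)) (imV (X.ω i)) = 0 ∧ 0 < bilR X.B (reV (X.ω i)) (reV (X.ω i)) := by
  obtain ⟨p, hp⟩ : ∃ p, p = reV (X.ω i) := ⟨_, rfl⟩
  obtain ⟨q, hq⟩ : ∃ q, q = imV (X.ω i) := ⟨_, rfl⟩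
  have hω : X.ω i = toC p + Complex.I • toC q := by rw [hp, hq]; exact eq_re_im _
  have hc : cj (X.ω i) = toC p - Complex.I • toC q := by rw [hp, hq]; exact cj_eq _
  rw [← hp, ← hq]
  have h1 := X.iso i
  have h2 := X.pos i
  rw [hc] at h2
  rw [hω] at h1 h2
  simp only [bil_add_left, bil_add_right, bil_sub_right, bil_smul_left, bil_smul_right,
    bil_toC, m_symm X q p] at h1 h2
  have h1r := congrArg Complex.re h1
  have h1i := congrArg Complex.im h1
  simp at h1r h1i h2
  refine ⟨by linarith, by linarith, by linarith⟩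

theorem re_mem2 (i : Fin N) : reV (X.ω i) ∈ X.U i := by
  refine ⟨fun a ha => by simp [reV, X.ωblock i a ha], ?_⟩
  intro P _ c hc a
  have h1 := congrFun hc a
  have h2 := congrArg Complex.re h1
  simp only [app, Pi.smul_apply, smul_eq_mul, Complex.re_sum, Complex.mul_re,
    Complex.ratCast_re, Complex.ratCast_im, Complex.ofReal_re, Complex.ofReal_im, zero_mul,
    sub_zero] at h2
  simp only [reV]
  exact h2

theorem im_mem2 (i : Fin N) : imV (X.ω i) ∈ X.U i := by
  refine ⟨fun a ha => by simp [imV, X.ωblock i a ha], ?_⟩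
  intro P _ c hc a
  have h1 := congrFun hc a
  have h2 := congrArg Complex.im h1
  simp only [app, Pi.smul_apply, smul_eq_mul, Complex.im_sum, Complex.mul_im,
    Complex.ratCast_re, Complex.ratCast_im, Complex.ofReal_re, Complex.ofReal_im, zero_mul,
    add_zero] at h2
  simp only [imV]
  exact h2

theorem neg_facts2 (i : Fin N) (v : Fin n → ℝ) (hsup : ∀ a, X.c a ≠ i → v a = 0) (hv : v ≠ 0)
    (h1 : bilR X.B v (reV (X.ω i)) = 0) (h2 : bilR X.B v (imV (X.ω i)) = 0) :
    bilR X.B v v < 0 := by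
  have h3 : bil X.B (toC v) (X.ω i) = 0 := by
    rw [eq_re_im (X.ω i), bil_add_right, bil_smul_right, bil_toC, bil_toC, h1, h2]
    simp
  have h4 := X.neg i v hsup hv h3
  have h5 : bil X.B (fun i => (v i : ℂ)) (fun i => (v i : ℂ)) = ((bilR X.B v v : ℝ) : ℂ) :=
    bil_toC X.B v v
  rw [h5, Complex.ofReal_re] at h4
  exact h4

/-- the common orthogonal complement of the `U_i` -/
def compl : Submodule ℝ (Fin n → ℝ) where
  carrier := {v | ∀ i, ∀ u ∈ X.U i, bilR X.B u v = 0}
  zero_mem' := by intro i u _; simp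
  add_mem' := by intro v w hv hw i u hu; rw [map_add, hv i u hu, hw i u hu, add_zero]
  smul_mem' := by intro a v hv i u hu; rw [map_smul, hv i u hu, smul_zero]

theorem compl_neg (v : Fin n → ℝ) (hv : v ∈ compl X) (hv0 : v ≠ 0) : bilR X.B v v < 0 := by
  classical
  have h1 : ∀ i, bilR X.B (part X i v) (part X i v) ≤ 0 ∧
      (part X i v ≠ 0 → bilR X.B (part X i v) (part X i v) < 0) := by
    intro i
    have h2 : part X i v ≠ 0 → bilR X.B (part X i v) (part X i v) < 0 := by
      intro h0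
      refine neg_facts2 X i _ (part_supp X i v) h0 ?_ ?_
      · rw [part_left X i _ v (re_mem2 X i).1, m_symm]
        exact hv i _ (re_mem2 X i)
      · rw [part_left X i _ v (im_mem2 X i).1, m_symm]
        exact hv i _ (im_mem2 X i)
    refine ⟨?_, h2⟩
    by_cases h0 : part X i v = 0
    · rw [h0]; simp
    · exact (h2 h0).le
  have h3 : bilR X.B v v = ∑ i, bilR X.B (part X i v) (part X i v) := by
    conv_lhs => rw [← sum_part X v]
    rw [map_sum]
    refine Finset.sum_congr rfl fun i _ => ?_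
    rw [sum_part, part_left X i (part X i v) v (part_supp X i v)]
  rw [h3]
  have h4 : ∃ i, part X i v ≠ 0 := by
    by_contra hc
    push Not at hc
    apply hv0
    rw [← sum_part X v]
    exact Finset.sum_eq_zero fun i _ => hc i
  obtain ⟨i, hi⟩ := h4
  exact Finset.sum_neg' (fun j _ => (h1 j).1) ⟨i, Finset.mem_univ i, (h1 i).2 hi⟩

theorem U_nondeg (i : Fin N) (u : Fin n → ℝ) (hu : u ∈ X.U i)
    (h : ∀ v ∈ X.U i, bilR X.B u v = 0) : u = 0 := by
  by_contra h0
  have h2 := neg_facts2 X i u hu.1 h0 (h _ (re_mem2 X i)) (h _ (im_mem2 X i))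
  rw [h u hu] at h2
  exact lt_irrefl _ h2

end facts

/-! ### The main theorem for products -/

/-- the main theorem with the irreducibility and independence as hypotheses -/
theorem main2X (hlog : S_log2) (hhyp : S_hyp2) (hreG : S_reG) (hlie : S_lie) (hcore : S_core)
    (hgour : S_gour) (n N : ℕ) (X : Multi n N)
    (hI : ∀ i, CIrrOn (X.hT : Set (End ℝ (Fin n → ℝ))) (X.U i) ∧
      (∀ y ∈ X.hT, Skew (bilR X.B) y) ∧ (∀ y ∈ X.hT, ∀ u ∈ X.U i, y u ∈ X.U i))
    (hInd : ∀ i j, i ≠ j → ∀ Ψ : X.U i →ₗ[ℝ] X.U j,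
      (∀ y ∈ X.hT, ∀ u u' : X.U i, y (u : Fin n → ℝ) = (u' : Fin n → ℝ) →
        y (Ψ u : Fin n → ℝ) = (Ψ u' : Fin n → ℝ)) → Ψ = 0)
    (hdim : ∀ i, 3 ≤ finrank ℝ (X.U i) ∧ finrank ℝ (X.U i) ≠ 4 ∧ finrank ℝ (X.U i) ≠ 5) :
    ∀ i, ∀ y : End ℝ (Fin n → ℝ), Skew (bilR X.B) y →
      (∀ v, (∀ u ∈ X.U i, bilR X.B u v = 0) → y v = 0) → y ∈ X.hT := by
  classical
  intro i₀ y₀ hy₀s hy₀W
  set B := bilR X.B with hB
  have hs : ∀ u v, B u v = B v u := m_symm X
  have hsk : ∀ y ∈ X.hT, Skew B y := (hI i₀).2.1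
  have hU : ∀ i, ∀ y ∈ X.hT, ∀ u ∈ X.U i, y u ∈ X.U i := fun i => (hI i).2.2
  have hcl : ∀ x : End ℝ (Fin n → ℝ), (∀ (k : ℕ)
      (t : MultilinearMap ℝ (fun _ : Fin k => (Fin n → ℝ)) ℝ),
      (∀ y ∈ X.hT, Kills y t) → Kills x t) → x ∈ X.hT :=
    fun x hx k t ht => hx k (formR t) (fun y hy => hy k t ht)
  have hlie' : ∀ y ∈ X.hT, ∀ y' ∈ X.hT, y * y' - y' * y ∈ X.hT := by
    intro y hy y' hy'
    exact hcl _ (fun k t ht => hlie _ k t y y' (ht y hy) (ht y' hy'))
  set W := compl X with hW
  have hWneg : ∀ w ∈ W, w ≠ 0 → B w w < 0 := compl_neg X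
  have hWst : ∀ y ∈ X.hT, ∀ w ∈ W, y w ∈ W := by
    intro y hy w hw i u hu
    have e1 := hsk y hy u w
    have e2 : B (y u) w = 0 := hw i (y u) (hU i y hy u hu)
    linarith
  -- projections
  have hcompl : ∀ i, IsCompl (X.U i) (orth B (X.U i)) := fun i =>
    isCompl_orth' hs (U_nondeg X i)
  let π : ∀ i, (Fin n → ℝ) →ₗ[ℝ] X.U i := fun i => (X.U i).projectionOnto _ (hcompl i)
  have hπU : ∀ i, ∀ u : X.U i, π i u = u := fun i u =>
    Submodule.projectionOnto_apply_left (hcompl i) u
  have hπW : ∀ i, ∀ w ∈ orth B (X.U i), π i w = 0 := fun i w hw =>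
    (Submodule.projectionOnto_apply_eq_zero_iff (hcompl i)).2 hw
  have hρ : ∀ i v, v - (π i v : Fin n → ℝ) ∈ orth B (X.U i) := by
    intro i v
    have h1 : π i (v - (π i v : Fin n → ℝ)) = 0 := by
      rw [map_sub, hπU, sub_self]
    exact (Submodule.projectionOnto_apply_eq_zero_iff (hcompl i)).1 h1
  have hblk : ∀ i j, i ≠ j → ∀ u ∈ X.U i, ∀ v ∈ X.U j, B u v = 0 := fun i j hij u hu v hv =>
    m_block X hij hu.1 hv.1
  have hdec : ∀ v, v - ∑ i, (π i v : Fin n → ℝ) ∈ W := by
    intro v j u hu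
    rw [map_sub, map_sum, Finset.sum_eq_single j]
    · have e1 : B u (v - (π j v : Fin n → ℝ)) = 0 := hρ j v u hu
      rw [map_sub] at e1
      exact e1
    · intro i _ hij
      exact hblk j i (Ne.symm hij) u hu _ (π i v).2
    · intro h; exact absurd (Finset.mem_univ j) h
  -- two operators which agree on all `U_i` and on `W` are equal
  have hext : ∀ y y' : End ℝ (Fin n → ℝ), (∀ i, ∀ u ∈ X.U i, y u = y' u) →
      (∀ w ∈ W, y w = y' w) → y = y' := by
    intro y y' hyU hyW
    refine LinearMap.ext fun v => ?_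
    have e1 : v = ∑ i, (π i v : Fin n → ℝ) + (v - ∑ i, (π i v : Fin n → ℝ)) := by abel
    rw [e1, map_add, map_add, map_sum, map_sum, hyW _ (hdec v)]
    congr 1
    exact Finset.sum_congr rfl fun i _ => hyU i _ (π i v).2
  -- the ideal of the elements which vanish on `W`
  let cc : Submodule ℝ (End ℝ (Fin n → ℝ)) :=
    { carrier := {y | y ∈ X.hT ∧ ∀ w ∈ W, y w = 0}
      zero_mem' := ⟨X.hT.zero_mem, fun w _ => rfl⟩
      add_mem' := by
        rintro a b ⟨ha, ha'⟩ ⟨hb, hb'⟩
        exact ⟨X.hT.add_mem ha hb, fun w hw => by simp [ha' w hw, hb' w hw]⟩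
      smul_mem' := by
        rintro c a ⟨ha, ha'⟩
        exact ⟨X.hT.smul_mem _ ha, fun w hw => by simp [ha' w hw]⟩ }
  have hcc : ∀ y, y ∈ cc ↔ y ∈ X.hT ∧ ∀ w ∈ W, y w = 0 := fun y => Iff.rfl
  have hccid : ∀ y ∈ X.hT, ∀ z ∈ cc, y * z - z * y ∈ cc := by
    rintro y hy z ⟨hz, hz'⟩
    refine ⟨hlie' y hy z hz, fun w hw => ?_⟩
    simp only [LinearMap.sub_apply, End.mul_apply, hz' w hw, map_zero,
      hz' _ (hWst y hy w hw), sub_zero]
  -- real parts
  have hreal : ∀ y ∈ X.hT, ∃ x ∈ cc, Diag x ∧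
      ∀ (E : Submodule ℝ (Fin n → ℝ)) (α : ℝ) (P : (Fin n → ℝ) →ₗ[ℝ] (Fin n → ℝ) →ₗ[ℝ] ℝ),
        (∀ v ∈ E, y v ∈ E) → (∀ u v, P u v = P v u) → (∀ v ∈ E, v ≠ 0 → 0 < P v v) →
        (∀ u ∈ E, ∀ v ∈ E, P (y u) v + P u (y v) = 2 * α * P u v) → ∀ v ∈ E, x v = α • v := by
    intro y hy
    obtain ⟨x, hx1, hx2, hx3, hx4⟩ := hreG n y
    have hxh : x ∈ X.hT := hcl x (fun k t ht => hx2 k t (ht y hy))
    refine ⟨x, ⟨hxh, fun w hw => ?_⟩, hx1, hx4⟩
    exact diag_skew_zero x hx1 (hWst x hxh) (hsk x hxh) hWneg w hw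
  have hsubU : ∀ i (E : Submodule ℝ (X.U i)) (v : Fin n → ℝ),
      v ∈ E.map (X.U i).subtype ↔ ∃ u : X.U i, u ∈ E ∧ (u : Fin n → ℝ) = v := by
    intro i E v
    rfl
  let Bi : ∀ i, (X.U i) →ₗ[ℝ] (X.U i) →ₗ[ℝ] ℝ := fun i => B.domRestrict₁₂ (X.U i) (X.U i)
  have hBi : ∀ i, ∀ u v : X.U i, Bi i u v = B u v := fun i u v => rfl
  have hsig : ∀ i, Sig2 (Bi i) := by
    intro i
    obtain ⟨e1, e2, e3⟩ := omega_facts2 X i
    refine ⟨fun u v => hs u v, ⟨_, re_mem2 X i⟩, ⟨_, im_mem2 X i⟩, e3, ?_, e2, ?_⟩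
    · rw [hBi]
      exact lt_of_lt_of_eq e3 e1.symm
    · intro v hv h1 h2
      exact neg_facts2 X i v v.2.1 (fun h0 => hv (Subtype.ext h0)) h1 h2
  -- the projection of `cc` to `so(U_i)` is onto
  have hsurj : ∀ i, ∀ z : End ℝ (X.U i), Skew (Bi i) z →
      ∃ y ∈ cc, ∀ u : X.U i, ((z u : X.U i) : Fin n → ℝ) = y u := by
    intro i
    let hh : Submodule ℝ (End ℝ (X.U i)) :=
      { carrier := {z | ∃ y ∈ X.hT, ∀ u : X.U i, ((z u : X.U i) : Fin n → ℝ) = y u}
        zero_mem' := ⟨0, X.hT.zero_mem, fun u => rfl⟩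
        add_mem' := by
          rintro a b ⟨y, hy, h1⟩ ⟨y', hy', h2⟩
          exact ⟨y + y', X.hT.add_mem hy hy', fun u => by simp [h1, h2]⟩
        smul_mem' := by
          rintro c a ⟨y, hy, h1⟩
          exact ⟨c • y, X.hT.smul_mem _ hy, fun u => by simp [h1]⟩ }
    let nn : Submodule ℝ (End ℝ (X.U i)) :=
      { carrier := {z | ∃ y ∈ cc, ∀ u : X.U i, ((z u : X.U i) : Fin n → ℝ) = y u}
        zero_mem' := ⟨0, cc.zero_mem, fun u => rfl⟩
        add_mem' := by
          rintro a b ⟨y, hy, h1⟩ ⟨y', hy', h2⟩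
          exact ⟨y + y', cc.add_mem hy hy', fun u => by simp [h1, h2]⟩
        smul_mem' := by
          rintro c a ⟨y, hy, h1⟩
          exact ⟨c • y, cc.smul_mem _ hy, fun u => by simp [h1]⟩ }
    have hDat : Dat (Bi i) hh nn := by
      refine ⟨hsig i, ?_, ?_, ?_, ?_, ?_, ?_⟩
      · rintro z ⟨y, hy, hz⟩ u v
        rw [hBi, hBi, hz, hz]
        exact hsk y hy u v
      · rintro z ⟨y, hy, hz⟩
        exact ⟨y, hy.1, hz⟩
      · rintro z ⟨y, hy, hz⟩ z' ⟨y', hy', hz'⟩
        refine ⟨y * y' - y' * y, hlie' y hy y' hy', fun u => ?_⟩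
        simp only [LinearMap.sub_apply, End.mul_apply, Submodule.coe_sub, hz, hz']
      · rintro z ⟨y, hy, hz⟩ z' ⟨y', hy', hz'⟩
        refine ⟨y * y' - y' * y, hccid y hy y' hy', fun u => ?_⟩
        simp only [LinearMap.sub_apply, End.mul_apply, Submodule.coe_sub, hz, hz']
      · intro M hMJ hMh
        let ι : (X.U i × X.U i) →ₗ[ℝ] ((Fin n → ℝ) × (Fin n → ℝ)) :=
          LinearMap.prodMap (X.U i).subtype (X.U i).subtype
        have hι : ∀ x : X.U i × X.U i, ι x = ((x.1 : Fin n → ℝ), (x.2 : Fin n → ℝ)) :=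
          fun x => rfl
        rcases (hI i).1 (M.map ι) (by
            rintro _ ⟨x, _, rfl⟩
            exact ⟨x.1.2, x.2.2⟩) (by
            rintro _ ⟨x, hx, rfl⟩
            exact ⟨(-x.2, x.1), hMJ x hx, by simp [hι]⟩) (by
            rintro y hy _ ⟨x, hx, rfl⟩
            have hst : ∀ u ∈ X.U i, y u ∈ X.U i := hU i y hy
            refine ⟨(LinearMap.restrict y hst x.1, LinearMap.restrict y hst x.2),
              hMh (LinearMap.restrict y hst) ⟨y, hy, fun u => rfl⟩ x hx, by simp [hι]⟩)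
          with h1 | h1
        · left
          rw [eq_bot_iff]
          intro x hx
          have : ι x ∈ M.map ι := ⟨x, hx, rfl⟩
          rw [h1, Submodule.mem_bot, hι] at this
          have e1 : (x.1 : Fin n → ℝ) = 0 := congrArg Prod.fst this
          have e2 : (x.2 : Fin n → ℝ) = 0 := congrArg Prod.snd this
          rw [Submodule.mem_bot]
          exact Prod.ext (Subtype.ext e1) (Subtype.ext e2)
        · right
          rw [eq_top_iff]
          intro x _
          obtain ⟨x', hx', hxx⟩ := h1 x.1 x.1.2 x.2 x.2.2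
          rw [hι] at hxx
          have e1 : x'.1 = x.1 := Subtype.ext (congrArg Prod.fst hxx)
          have e2 : x'.2 = x.2 := Subtype.ext (congrArg Prod.snd hxx)
          have : x' = x := Prod.ext e1 e2
          rwa [← this]
      · rintro P hP y₁ y₂ h1 h2 hc ⟨y, hy, hyz⟩
        obtain ⟨x, hx, hxd, hxr⟩ := hreal y hy
        refine ⟨x, hx, fun u => ?_⟩
        have hd1 : Diag y₁ := diag_of_sym P hP y₁ h1
        let P' : (Fin n → ℝ) →ₗ[ℝ] (Fin n → ℝ) →ₗ[ℝ] ℝ := P.compl₁₂ (π i) (π i)
        have hP' : ∀ v w, P' v w = P (π i v) (π i w) := fun v w => rfl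
        have key : ∀ u : X.U i, u ∈ (⨆ μ : ℝ, End.eigenspace y₁ μ) →
            ((y₁ u : X.U i) : Fin n → ℝ) = x u := by
          intro u hu
          induction hu using Submodule.iSup_induction' with
          | zero => simp
          | add a b _ _ ha hb => simp [ha, hb]
          | mem α v hv =>
            have hv' := hv
            rw [End.mem_eigenspace_iff] at hv
            have h5 := hxr ((End.eigenspace y₁ α).map (X.U i).subtype) α P' (by
                rintro _ ⟨u, hu, rfl⟩
                refine ⟨(y₁ + y₂) u, ?_, hyz u⟩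
                have hu' : u ∈ End.eigenspace y₁ α := hu
                rw [End.mem_eigenspace_iff] at hu'
                change (y₁ + y₂) u ∈ End.eigenspace y₁ α
                rw [End.mem_eigenspace_iff, LinearMap.add_apply, map_add, hu', map_smul, hu',
                  smul_add]
                congr 1
                have e := congrArg (fun f : End ℝ (X.U i) => f u) hc
                simp only [End.mul_apply] at e
                rw [e, hu', map_smul])
              (fun u v => by rw [hP', hP', hP.1])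
              (by
                rintro _ ⟨u, _, rfl⟩ h0
                have h0' : u ≠ 0 := fun h => h0 (by rw [h]; rfl)
                rw [hP']
                have e : π i ((X.U i).subtype u) = u := hπU i u
                rw [e]
                exact hP.2 u h0')
              (by
                rintro _ ⟨u, hu, rfl⟩ _ ⟨w, hw, rfl⟩
                have hu' : y₁ u = α • u := End.mem_eigenspace_iff.1 hu
                have hw' : y₁ w = α • w := End.mem_eigenspace_iff.1 hw
                have eu : π i ((X.U i).subtype u) = u := hπU i u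
                have ew : π i ((X.U i).subtype w) = w := hπU i w
                have eyu : π i (y ((X.U i).subtype u)) = (y₁ + y₂) u := by
                  have : y ((X.U i).subtype u) = (((y₁ + y₂) u : X.U i) : Fin n → ℝ) :=
                    (hyz u).symm
                  rw [this, hπU]
                have eyw : π i (y ((X.U i).subtype w)) = (y₁ + y₂) w := by
                  have : y ((X.U i).subtype w) = (((y₁ + y₂) w : X.U i) : Fin n → ℝ) :=
                    (hyz w).symm
                  rw [this, hπU]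
                rw [hP', hP', hP', eu, ew, eyu, eyw, LinearMap.add_apply, LinearMap.add_apply,
                  hu', hw', map_add, map_add, LinearMap.add_apply, map_smul, map_smul,
                  LinearMap.smul_apply, smul_eq_mul]
                have e := h2 u w
                linarith)
              _ ⟨v, hv', rfl⟩
            rw [hv]
            exact h5.symm
        have hd1' : (⨆ μ : ℝ, End.eigenspace y₁ μ) = ⊤ := hd1
        exact key u (by rw [hd1']; trivial)
    -- a negative vector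
    have hneg : ∃ u ∈ X.U i, B u u < 0 := by
      have h3' := (hdim i).1
      let f : X.U i →ₗ[ℝ] (Fin 2 → ℝ) := LinearMap.pi ![
        (Bi i).flip ⟨_, re_mem2 X i⟩, (Bi i).flip ⟨_, im_mem2 X i⟩]
      have hf : LinearMap.ker f ≠ ⊥ := by
        intro hbot
        have h5 := LinearMap.finrank_le_finrank_of_injective (LinearMap.ker_eq_bot.1 hbot)
        rw [Module.finrank_fin_fun] at h5
        omega
      obtain ⟨u, hu, hu0⟩ := Submodule.exists_mem_ne_zero_of_ne_bot hf
      rw [LinearMap.mem_ker] at hu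
      have e1 := congrFun hu 0
      have e2 := congrFun hu 1
      simp only [f, LinearMap.pi_apply, Matrix.cons_val_zero, Matrix.cons_val_one,
        LinearMap.flip_apply, Pi.zero_apply] at e1 e2
      exact ⟨u, u.2, neg_facts2 X i u u.2.1 (fun h0 => hu0 (Subtype.ext h0)) e1 e2⟩
    obtain ⟨e1, e2, e3⟩ := omega_facts2 X i
    obtain ⟨g, hg1, α, β, hαβ, u, hu, v, hv, huv, hgu, hgv⟩ :=
      hhyp n X.hT B (X.U i) (hU i) hs hsk (hI i).1 ⟨_, re_mem2 X i, e3⟩ hneg
    obtain ⟨x, hxd, hxk, hxe, hxs⟩ := hlog n g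
    have hxh : x ∈ X.hT := hcl x (fun k t ht => hxk k t (hg1 k t ht))
    obtain ⟨f1, f2, f3⟩ := hxe α β u v huv hgu hgv
    have hxW : ∀ w ∈ W, x w = 0 := diag_skew_zero x hxd (hWst x hxh) (hsk x hxh) hWneg
    have hxU : ∀ u ∈ X.U i, x u ∈ X.U i := hU i x hxh
    have hxn : LinearMap.restrict x hxU ∈ nn := ⟨x, ⟨hxh, hxW⟩, fun u => rfl⟩
    have hlogne : Real.log (α ^ 2 + β ^ 2) / 2 ≠ 0 := by
      have : Real.log (α ^ 2 + β ^ 2) ≠ 0 := by
        intro h0
        rcases Real.log_eq_zero.1 h0 with h | h | h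
        · linarith
        · exact hαβ h
        · linarith
      exact div_ne_zero this two_ne_zero
    have hx0' : LinearMap.restrict x hxU ≠ 0 := by
      intro h0
      rcases huv with h | h
      · have e : x u = 0 :=
          congrArg (Subtype.val) (congrArg (fun f : End ℝ (X.U i) => f ⟨u, hu⟩) h0)
        rw [f1] at e
        exact h ((smul_eq_zero.1 e).resolve_left hlogne)
      · have e : x v = 0 :=
          congrArg (Subtype.val) (congrArg (fun f : End ℝ (X.U i) => f ⟨v, hv⟩) h0)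
        rw [f2] at e
        exact h ((smul_eq_zero.1 e).resolve_left hlogne)
    have hxdU : Diag (LinearMap.restrict x hxU) := by
      have h4 : (⨆ μ : ℝ, x.genEigenspace μ 1) = ⊤ := hxd
      exact Module.End.genEigenspace_restrict_eq_top hxU h4
    intro z hz
    exact hcore (X.U i) (Bi i) hh nn hDat (hdim i).2.2 ⟨_, hxn, hx0', hxdU⟩ z hz
  -- Goursat
  let gg : Submodule ℝ (∀ i, End ℝ (X.U i)) :=
    { carrier := {z | ∃ y ∈ X.hT, ∀ i, ∀ u : X.U i, ((z i u : X.U i) : Fin n → ℝ) = y u}
      zero_mem' := ⟨0, X.hT.zero_mem, fun i u => rfl⟩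
      add_mem' := by
        rintro a b ⟨y, hy, h1⟩ ⟨y', hy', h2⟩
        exact ⟨y + y', X.hT.add_mem hy hy', fun i u => by simp [h1, h2]⟩
      smul_mem' := by
        rintro c a ⟨y, hy, h1⟩
        exact ⟨c • y, X.hT.smul_mem _ hy, fun i u => by simp [h1]⟩ }
  let c' : Submodule ℝ (∀ i, End ℝ (X.U i)) :=
    { carrier := {z | ∃ y ∈ cc, ∀ i, ∀ u : X.U i, ((z i u : X.U i) : Fin n → ℝ) = y u}
      zero_mem' := ⟨0, cc.zero_mem, fun i u => rfl⟩
      add_mem' := by
        rintro a b ⟨y, hy, h1⟩ ⟨y', hy', h2⟩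
        exact ⟨y + y', cc.add_mem hy hy', fun i u => by simp [h1, h2]⟩
      smul_mem' := by
        rintro c a ⟨y, hy, h1⟩
        exact ⟨c • y, cc.smul_mem _ hy, fun i u => by simp [h1]⟩ }
  have hres : ∀ y ∈ X.hT, ∃ z : ∀ i, End ℝ (X.U i),
      ∀ i, ∀ u : X.U i, ((z i u : X.U i) : Fin n → ℝ) = y u := by
    intro y hy
    exact ⟨fun i => LinearMap.restrict y (hU i y hy), fun i u => rfl⟩
  have hG := hgour N (fun i => X.U i) Bi hsig (fun i => (hdim i).1) (fun i => (hdim i).2.1) gg c'
    (by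
      rintro z ⟨y, hy, hz⟩
      exact ⟨y, hy.1, hz⟩)
    (by
      rintro z ⟨y, hy, hz⟩ i u v
      rw [hBi, hBi, hz, hz]
      exact hsk y hy u v)
    (by
      rintro z ⟨y, hy, hz⟩ z' ⟨y', hy', hz'⟩
      refine ⟨y * y' - y' * y, hccid y hy y' hy', fun i u => ?_⟩
      simp only [LinearMap.sub_apply, End.mul_apply, Submodule.coe_sub, hz, hz'])
    (by
      intro i z hz
      obtain ⟨y, hy, hyz⟩ := hsurj i z hz
      obtain ⟨w, hw⟩ := hres y hy.1
      refine ⟨w, ⟨y, hy, hw⟩, ?_⟩
      refine LinearMap.ext fun u => Subtype.ext ?_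
      rw [hw, hyz])
    (by
      rintro z ⟨y, hy, hz⟩
      obtain ⟨x, hx, hxd, hxr⟩ := hreal y hy.1
      obtain ⟨w, hw⟩ := hres x hx.1
      refine ⟨w, ⟨x, hx, hw⟩, fun j => ⟨?_, fun hzd => ?_⟩⟩
      · have h4 : (⨆ μ : ℝ, x.genEigenspace μ 1) = ⊤ := hxd
        have h5 := Module.End.genEigenspace_restrict_eq_top (hU j x hx.1) h4
        have h6 : w j = LinearMap.restrict x (hU j x hx.1) :=
          LinearMap.ext fun u => Subtype.ext (hw j u)
        rw [h6]
        exact h5
      · have key : ∀ u : X.U j, u ∈ (⨆ μ : ℝ, End.eigenspace (z j) μ) → w j u = z j u := by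
          intro u hu
          induction hu using Submodule.iSup_induction' with
          | zero => simp
          | add a b _ _ ha hb => simp [ha, hb]
          | mem α v hv =>
            have hv' := hv
            rw [End.mem_eigenspace_iff] at hv
            have h5 := hxr ((End.eigenspace (z j) α).map (X.U j).subtype) α
              (dotProductBilin ℝ ℝ) (by
                rintro _ ⟨u, hu, rfl⟩
                have hu' : z j u = α • u := End.mem_eigenspace_iff.1 hu
                refine ⟨α • u, Submodule.smul_mem _ _ hu, ?_⟩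
                rw [← hu']
                exact hz j u)
              (fun u v => dotProduct_comm u v)
              (by
                rintro u _ h0
                change 0 < u ⬝ᵥ u
                have h7 : 0 ≤ u ⬝ᵥ u := Finset.sum_nonneg fun i _ => mul_self_nonneg _
                exact lt_of_le_of_ne h7 (fun h8 => h0 (dotProduct_self_eq_zero.1 h8.symm)))
              (by
                rintro _ ⟨u, hu, rfl⟩ _ ⟨v, hv, rfl⟩
                have hu' : z j u = α • u := End.mem_eigenspace_iff.1 hu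
                have hv' : z j v = α • v := End.mem_eigenspace_iff.1 hv
                have e1 : y ((X.U j).subtype u) = α • (X.U j).subtype u := by
                  have := hz j u
                  rw [hu'] at this
                  exact this.symm
                have e2 : y ((X.U j).subtype v) = α • (X.U j).subtype v := by
                  have := hz j v
                  rw [hv'] at this
                  exact this.symm
                rw [e1, e2, map_smul, map_smul, LinearMap.smul_apply, smul_eq_mul]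
                ring)
              _ ⟨v, hv', rfl⟩
            apply Subtype.ext
            rw [hv, hw]
            exact h5
        have hd1' : (⨆ μ : ℝ, End.eigenspace (z j) μ) = ⊤ := hzd
        exact LinearMap.ext fun u => key u (by rw [hd1']; trivial))
    (by
      intro i j hij Ψ hΨ
      refine hInd i j hij Ψ ?_
      intro y hy u u' huu
      obtain ⟨w, hw⟩ := hres y hy
      have e1 := hΨ w ⟨y, hy, hw⟩ u
      have e2 : w i u = u' := Subtype.ext (by rw [hw, huu])
      rw [e2] at e1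
      rw [← hw, e1])
  -- conclusion
  have hnd : ∀ w, (∀ v, B w v = 0) → w = 0 := by
    intro w hw
    by_contra h0
    have hwW : w ∈ W := fun i u _ => by rw [← hB, hs]; exact hw u
    exact absurd (hw w) (hWneg w hwW h0).ne
  have hyU : ∀ u ∈ X.U i₀, y₀ u ∈ X.U i₀ := by
    intro u hu
    have h1 : y₀ u - (π i₀ (y₀ u) : Fin n → ℝ) = 0 := by
      apply hnd
      intro v
      have e0 : v = (π i₀ v : Fin n → ℝ) + (v - π i₀ v) := by abel
      have e1 : B (y₀ u - (π i₀ (y₀ u) : Fin n → ℝ)) (π i₀ v) = 0 := by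
        rw [hs]; exact hρ i₀ (y₀ u) _ (π i₀ v).2
      have e2 : B (π i₀ (y₀ u)) (v - π i₀ v) = 0 := hρ i₀ v _ (π i₀ (y₀ u)).2
      have e3 : B (y₀ u) (v - π i₀ v) = 0 := by
        have := hy₀s u (v - π i₀ v)
        rw [hy₀W _ (hρ i₀ v), map_zero, add_zero] at this
        exact this
      have e4 : B (y₀ u - (π i₀ (y₀ u) : Fin n → ℝ)) (v - π i₀ v) = 0 := by
        rw [map_sub B, LinearMap.sub_apply, e2, e3, sub_zero]
      have e5 : B (y₀ u - (π i₀ (y₀ u) : Fin n → ℝ)) v =
          B (y₀ u - (π i₀ (y₀ u) : Fin n → ℝ)) (π i₀ v) +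
          B (y₀ u - (π i₀ (y₀ u) : Fin n → ℝ)) (v - π i₀ v) := by
        rw [← map_add, ← e0]
      rw [e5, e1, e4, add_zero]
    rw [sub_eq_zero] at h1
    rw [h1]
    exact (π i₀ (y₀ u)).2
  obtain ⟨w, ⟨y, hy, hw⟩, hw1, hw2⟩ := hG i₀ (LinearMap.restrict y₀ hyU)
    (fun u v => hy₀s u v)
  have : y₀ = y := by
    refine hext y₀ y (fun i u hu => ?_) (fun v hv => ?_)
    · by_cases hi : i = i₀
      · subst hi
        have := hw i ⟨u, hu⟩
        rw [hw1] at this
        exact this
      · have e1 := hw i ⟨u, hu⟩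
        rw [hw2 i hi] at e1
        rw [hy₀W u (fun u' hu' => hblk i₀ i (Ne.symm hi) u' hu' u hu)]
        exact e1
    · rw [hy.2 v hv]
      exact hy₀W v (fun u hu => hv i₀ u hu)
  rw [this]
  exact hy.1

theorem main2 (hlog : S_log2) (hhyp : S_hyp2) (hreG : S_reG) (hlie : S_lie) (hcore : S_core)
    (hgour : S_gour) (hirr : S_irr2) (hind : S_ind2) : S_main2 := by
  intro n N X h1 h2 h3 h4 hdim
  exact main2X hlog hhyp hreG hlie hcore hgour n N X (hirr n N X h1 h2 h3 h4)
    (hind n N X h1 h2 h3 h4) hdim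

end

end Pool.Agent.W544.K3
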