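import Pool.Agent.W544.K3.Defs2

/-!
# Algebraic classes on products of K3 surfaces (definitions and statements of the parts)
-/

open Module Finset

namespace Pool.Agent.W544.K3

noncomputable section

variable {n N : ℕ} (X : Multi n N)

/-- the intersection form of `T_i`, extended by zero -/
def Multi.blk (i : Fin N) (a b : Fin n) : ℚ := if X.c a = i then X.B a b else 0

/-- the rank of `T_i` -/
def Multi.rk (i : Fin N) : ℕ := (univ.filter fun a => X.c a = i).card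

/-- products of the intersection forms of the `T_i` -/
def Multi.pairs (k : ℕ) : Submodule ℚ ((Fin k → Fin n) → ℚ) :=
  Submodule.span ℚ {s | ∃ (σ : Fin k → Fin k) (κ : Fin k → Fin N), (∀ j, σ (σ j) = j) ∧
    (∀ j, σ j ≠ j) ∧ ∀ I, s I = ∏ j with j < σ j, X.blk (κ j) (I j) (I (σ j))}

/-- (FFT2) -/
def S_fft2 : Prop := ∀ (n N : ℕ) (X : Multi n N) (k : ℕ) (t : (Fin k → Fin n) → ℚ),
  (∀ i, ∀ y : End ℝ (Fin n → ℝ), Skew (bilR X.B) y →
    (∀ v : Fin n → ℝ, (∀ a, X.c a = i → v a = 0) → y v = 0) → Kills y (formR t)) →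
  (∀ I, t I ≠ 0 → ∀ i, (univ.filter fun j => X.c (I j) = i).card < X.rk i) →
  t ∈ X.pairs k

/-! ### Products of K3 surfaces -/

/-- the period matrix of the total cohomology (`s` algebraic classes, transcendental part
`⊕ T_i`) -/
def Multi.D' (s : ℕ) : Matrix (Fin s ⊕ Fin n) (Fin s ⊕ Fin n) ℂ :=
  Matrix.fromBlocks 1 0 0 X.D

/-- a class on a product of `m` of the surfaces is de Rham-Betti -/
def Multi.IsDRB' {s m : ℕ} (t : (Fin m → Fin s ⊕ Fin n) → ℚ) : Prop :=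
  ∀ J : Fin m → Fin s ⊕ Fin n,
    IsAlgebraic ℚ (∑ I : Fin m → Fin s ⊕ Fin n, (t I : ℂ) * ∏ j, X.D' s (I j) (J j))

/-- Hodge type of a vector in the total cohomology -/
def Multi.HType' {s : ℕ} (v : Fin s ⊕ Fin n → ℂ) (p : ℤ) : Prop :=
  (p = 1 ∧ ∃ i, v = Sum.elim (fun _ => 0) (X.ω i)) ∨
  (p = -1 ∧ ∃ i, v = Sum.elim (fun _ => 0) (cj (X.ω i))) ∨
  (p = 0 ∧ ∀ i, bil X.B (v ∘ Sum.inr) (X.ω i) = 0 ∧ bil X.B (v ∘ Sum.inr) (cj (X.ω i)) = 0)

/-- a class on a product of `m` of the surfaces is a Hodge class -/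
def Multi.IsHodge' {s m : ℕ} (t : (Fin m → Fin s ⊕ Fin n) → ℚ) : Prop :=
  ∀ (v : Fin m → Fin s ⊕ Fin n → ℂ) (p : Fin m → ℤ), (∀ j, X.HType' (v j) (p j)) →
    ∑ j, p j ≠ 0 → ev t v = 0

/-- the form of `T_i` on the total cohomology -/
def Multi.blk' (s : ℕ) (i : Fin N) : Fin s ⊕ Fin n → Fin s ⊕ Fin n → ℚ
  | Sum.inr a, Sum.inr b => X.blk i a b
  | _, _ => 0

/-- products of algebraic classes of the surfaces on some of the factors and of the transcendental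
parts of the diagonals on pairs of factors -/
def Multi.algClasses (s m : ℕ) : Submodule ℚ ((Fin m → Fin s ⊕ Fin n) → ℚ) :=
  Submodule.span ℚ {t | ∃ (σ : Fin m → Fin m) (ν : Fin m → Fin s → ℚ) (κ : Fin m → Fin N),
    (∀ j, σ (σ j) = j) ∧
    ∀ I, t I = (∏ j with σ j = j, Sum.elim (ν j) (fun _ => 0) (I j)) *
      ∏ j with j < σ j, X.blk' s (κ j) (I j) (I (σ j))}

/-- (EXT2) -/
def S_ext2 : Prop := ∀ (n N s : ℕ) (X : Multi n N),
  ((∀ (k : ℕ) (t : (Fin k → Fin n) → ℚ), X.IsDRB t → X.IsHodge t) →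
    ∀ (m : ℕ) (t : (Fin m → Fin s ⊕ Fin n) → ℚ), X.IsDRB' t → X.IsHodge' t) ∧
  ((∀ (k : ℕ) (t : (Fin k → Fin n) → ℚ), X.IsDRB t →
      (∀ I, t I ≠ 0 → ∀ i, (univ.filter fun j => X.c (I j) = i).card < X.rk i) → t ∈ X.pairs k) →
    ∀ (m : ℕ) (t : (Fin m → Fin s ⊕ Fin n) → ℚ), X.IsDRB' t →
      (∀ I, t I ≠ 0 → ∀ i, (univ.filter fun j => ∃ a, I j = Sum.inr a ∧ X.c a = i).card <
        X.rk i) →
      t ∈ X.algClasses s m)

end

end Pool.Agent.W544.K3
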