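import Pool.Agent.W544.K3.Final2
import Pool.Agent.W544.K3.Defs3

/-!
# Products of K3 surfaces with trivial endomorphism algebras: algebraic classes
-/

open Module Finset

namespace Pool.Agent.W544.K3

noncomputable section

variable {n N : ℕ} (X : Multi n N)

/-- `End_Hdg (T_i) = ℚ` for all `i` and there are no Hodge morphisms between different `T_i`. -/
def Multi.Scalar : Prop := ∀ P, X.HodgeEnd P →
  ∃ q : Fin N → ℚ, ∀ a b, P a b = if a = b then q (X.c a) else 0

theorem app_scalar {P : Matrix (Fin n) (Fin n) ℚ} {q : Fin N → ℚ}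
    (h : ∀ a b, P a b = if a = b then q (X.c a) else 0) (u : Fin n → ℂ) (a : Fin n) :
    app P u a = (q (X.c a) : ℂ) * u a := by
  simp only [app, h]
  rw [Finset.sum_eq_single a]
  · simp
  · intro b _ hb
    rw [if_neg (Ne.symm hb)]
    simp
  · intro h'; exact absurd (Finset.mem_univ a) h'

theorem scalar_real (hS : X.Scalar) : X.RealMult := by
  intro P hP
  obtain ⟨q, hq⟩ := hS P hP
  refine ⟨fun u v => ?_, fun a b hab => ?_⟩
  · simp only [bil, app_scalar X hq]
    refine Finset.sum_congr rfl fun a _ => Finset.sum_congr rfl fun b _ => ?_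
    by_cases hab : X.c a = X.c b
    · rw [hab]; ring
    · rw [X.Bblock a b hab]; simp
  · rw [hq, if_neg]
    intro h
    exact hab (by rw [h])

theorem omega_ne (i : Fin N) : ∃ a, X.ω i a ≠ 0 := by
  by_contra hcon
  push Not at hcon
  have h := X.pos i
  have h0 : X.ω i = 0 := funext hcon
  rw [h0] at h
  simp [bil] at h

theorem mem_U (hS : X.Scalar) (i : Fin N) (v : Fin n → ℝ) :
    v ∈ X.U i ↔ ∀ a, X.c a ≠ i → v a = 0 := by
  constructor
  · intro h
    exact h.1
  · intro h
    refine ⟨h, ?_⟩
    intro P hP c hc a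
    obtain ⟨q, hq⟩ := hS P hP
    have h1 : (c : ℂ) = (q i : ℂ) := by
      obtain ⟨b, hb⟩ := omega_ne X i
      have hbi : X.c b = i := by
        by_contra hne
        exact hb (X.ωblock i b hne)
      have h2 := congrFun hc b
      rw [app_scalar X hq, hbi, Pi.smul_apply, smul_eq_mul] at h2
      exact (mul_right_cancel₀ hb h2).symm
    have h1' : c = (q i : ℝ) := by exact_mod_cast h1
    have h3 : ∑ b, (P a b : ℝ) * v b = (q (X.c a) : ℝ) * v a := by
      simp only [hq]
      rw [Finset.sum_eq_single a]
      · simp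
      · intro b _ hb
        rw [if_neg (Ne.symm hb)]
        simp
      · intro h'; exact absurd (Finset.mem_univ a) h'
    rw [h3]
    by_cases ha : X.c a = i
    · rw [ha, h1']
    · rw [h a ha]; simp

theorem finrank_U (hS : X.Scalar) (i : Fin N) : finrank ℝ (X.U i) = X.rk i := by
  classical
  let e : X.U i ≃ₗ[ℝ] ({a // X.c a = i} → ℝ) :=
    { toFun := fun v a => (v : Fin n → ℝ) a
      map_add' := fun v w => rfl
      map_smul' := fun r v => rfl
      invFun := fun w => ⟨fun a => if h : X.c a = i then w ⟨a, h⟩ else 0,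
        (mem_U X hS i _).2 (fun a ha => by simp [ha])⟩
      left_inv := by
        intro v
        apply Subtype.ext
        funext a
        by_cases h : X.c a = i
        · simp [h]
        · simp [h, v.2.1 a h]
      right_inv := by
        intro w
        funext a
        simp [a.2] }
  rw [e.finrank_eq, Module.finrank_fintype_fun_eq_card, Fintype.card_subtype]
  rfl

/-- de Rham-Betti classes with few transcendental factors are products of pairings -/
theorem drb_pairs (hfft : S_fft2)
    (hI : ∀ i, CIrrOn (X.hT : Set (End ℝ (Fin n → ℝ))) (X.U i) ∧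
      (∀ y ∈ X.hT, Skew (bilR X.B) y) ∧ (∀ y ∈ X.hT, ∀ u ∈ X.U i, y u ∈ X.U i))
    (hE : X.EndHodge) (hS : X.Scalar)
    (hdim : ∀ i, 3 ≤ X.rk i ∧ X.rk i ≠ 4 ∧ X.rk i ≠ 5) (k : ℕ) (t : (Fin k → Fin n) → ℚ)
    (ht : X.IsDRB t)
    (hs : ∀ I, t I ≠ 0 → ∀ i, (univ.filter fun j => X.c (I j) = i).card < X.rk i) :
    t ∈ X.pairs k := by
  have hmain := main2X_all X hI hE (scalar_real X hS)
    (fun i => by rw [finrank_U X hS i]; exact hdim i)
  refine hfft n N X k t (fun i y hy hyv => ?_) hs
  refine hmain i y hy (fun v hv => ?_) k t ht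
  apply hyv
  intro a ha
  -- the part of `v` in block `i` is orthogonal to the block
  have h1 : part X i v = 0 := by
    apply U_nondeg X i
    · exact (mem_U X hS i _).2 (part_supp X i v)
    · intro u hu
      rw [part_left X i u v hu.1, m_symm]
      exact hv u hu
  have h2 := congrFun h1 a
  simpa [part, ha] using h2

end

end Pool.Agent.W544.K3
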