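import Pool.Agent.W544.K3.Defs

open Module

namespace Pool.Agent.W544.K3

theorem core (h1 : S_struct) (h2 : S_rk) (h3 : S_eq) (h4 : S_ne) : S_core := by
  intro U _ _ _ B h n hD hU hx y hy
  obtain ⟨x, hxn, hx0, hxd⟩ := hx
  have hxs : Skew B x := hD.skew x (hD.sub hxn)
  have key : ∃ e f : U, Hyp B e f ∧ wedge B f e ∈ n := by
    rcases h1 U B hD.sig x hx0 hxs hxd with ⟨a, e, f, ha, hef, hx'⟩ |
      ⟨a, b, e₁, f₁, e₂, f₂, hb, hba, hH, hx'⟩
    · refine ⟨e, f, hef, ?_⟩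
      have : wedge B f e = a⁻¹ • x := by
        rw [hx', smul_smul, inv_mul_cancel₀ ha, one_smul]
      rw [this]
      exact n.smul_mem _ hxn
    · rcases hba.lt_or_eq with hlt | heq
      · exact h4 U B h n hD hU e₁ f₁ e₂ f₂ hH a b hb hlt (hx' ▸ hxn)
      · refine h3 U B h n hD e₁ f₁ e₂ f₂ hH ?_
        have : wedge B f₁ e₁ + wedge B f₂ e₂ = b⁻¹ • x := by
          rw [hx', heq, ← smul_add, smul_smul, inv_mul_cancel₀ (by rw [← heq]; exact hb.ne'),
            one_smul]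
        rw [this]
        exact n.smul_mem _ hxn
  obtain ⟨e, f, hef, hw⟩ := key
  exact h2 U B h n hD e f hef hw y hy

end Pool.Agent.W544.K3
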