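import Pool.Agent.W544.K3.Defs

/-!
# de Rham-Betti classes on products of K3 surfaces (definitions and statements of the parts)
-/

open Module Finset

namespace Pool.Agent.W544.K3

noncomputable section

/-! ### Linear algebra -/

/-- (LOG2) -/
def S_log2 : Prop := ∀ (n : ℕ) (g : (Fin n → ℝ) ≃ₗ[ℝ] (Fin n → ℝ)),
  ∃ x : End ℝ (Fin n → ℝ), Diag x ∧
    (∀ (k : ℕ) (t : MultilinearMap ℝ (fun _ : Fin k => (Fin n → ℝ)) ℝ),
      (∀ v, t (fun j => g (v j)) = t v) → Kills x t) ∧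
    (∀ α β : ℝ, ∀ u v : Fin n → ℝ, (u ≠ 0 ∨ v ≠ 0) → g u = α • u - β • v →
      g v = β • u + α • v → x u = (Real.log (α ^ 2 + β ^ 2) / 2) • u ∧
        x v = (Real.log (α ^ 2 + β ^ 2) / 2) • v ∧ 0 < α ^ 2 + β ^ 2) ∧
    (∀ M : Submodule ℝ (Fin n → ℝ), (∀ v ∈ M, g v ∈ M) → ∀ v ∈ M, x v ∈ M)

/-- (HYP2) -/
def S_hyp2 : Prop := ∀ (n : ℕ) (h : Submodule ℝ (End ℝ (Fin n → ℝ)))
  (B : (Fin n → ℝ) →ₗ[ℝ] (Fin n → ℝ) →ₗ[ℝ] ℝ) (U : Submodule ℝ (Fin n → ℝ)),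
  (∀ y ∈ h, ∀ u ∈ U, y u ∈ U) → (∀ u v, B u v = B v u) → (∀ y ∈ h, Skew B y) →
  CIrrOn (h : Set (End ℝ (Fin n → ℝ))) U → (∃ u ∈ U, 0 < B u u) → (∃ u ∈ U, B u u < 0) →
  ∃ g : (Fin n → ℝ) ≃ₗ[ℝ] (Fin n → ℝ),
    (∀ (k : ℕ) (t : MultilinearMap ℝ (fun _ : Fin k => (Fin n → ℝ)) ℝ),
      (∀ y ∈ h, Kills y t) → ∀ v, t (fun j => g (v j)) = t v) ∧
    ∃ α β : ℝ, α ^ 2 + β ^ 2 ≠ 1 ∧ ∃ u ∈ U, ∃ v ∈ U, (u ≠ 0 ∨ v ≠ 0) ∧
      g u = α • u - β • v ∧ g v = β • u + α • v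

/-- (REG) : the real part of an operator -/
def S_reG : Prop := ∀ (n : ℕ) (y : End ℝ (Fin n → ℝ)), ∃ x : End ℝ (Fin n → ℝ), Diag x ∧
  (∀ (k : ℕ) (t : MultilinearMap ℝ (fun _ : Fin k => (Fin n → ℝ)) ℝ), Kills y t → Kills x t) ∧
  (∀ M : Submodule ℝ (Fin n → ℝ), (∀ v ∈ M, y v ∈ M) → ∀ v ∈ M, x v ∈ M) ∧
  ∀ (E : Submodule ℝ (Fin n → ℝ)) (α : ℝ) (P : (Fin n → ℝ) →ₗ[ℝ] (Fin n → ℝ) →ₗ[ℝ] ℝ),
    (∀ v ∈ E, y v ∈ E) → (∀ u v, P u v = P v u) → (∀ v ∈ E, v ≠ 0 → 0 < P v v) →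
    (∀ u ∈ E, ∀ v ∈ E, P (y u) v + P u (y v) = 2 * α * P u v) → ∀ v ∈ E, x v = α • v

/-- (SIMP) : `so(B)` is simple -/
def S_simp : Prop := ∀ (U : Type) [AddCommGroup U] [Module ℝ U] [FiniteDimensional ℝ U]
  (B : U →ₗ[ℝ] U →ₗ[ℝ] ℝ), Sig2 B → 3 ≤ finrank ℝ U → finrank ℝ U ≠ 4 →
  ∀ n : Submodule ℝ (End ℝ U), (∀ y ∈ n, Skew B y) →
  (∀ z, Skew B z → ∀ y ∈ n, z * y - y * z ∈ n) → n ≠ ⊥ → ∀ z, Skew B z → z ∈ n

/-- (RIGID) : isomorphisms of `so(B)` and `so(B')` which preserve diagonalisable elements come from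
isometries -/
def S_rigid : Prop := ∀ (U U' : Type) [AddCommGroup U] [Module ℝ U] [FiniteDimensional ℝ U]
  [AddCommGroup U'] [Module ℝ U'] [FiniteDimensional ℝ U']
  (B : U →ₗ[ℝ] U →ₗ[ℝ] ℝ) (B' : U' →ₗ[ℝ] U' →ₗ[ℝ] ℝ), Sig2 B → Sig2 B' →
  3 ≤ finrank ℝ U → finrank ℝ U ≠ 4 → 3 ≤ finrank ℝ U' → finrank ℝ U' ≠ 4 →
  ∀ R : Submodule ℝ (End ℝ U × End ℝ U'),
  (∀ p ∈ R, Skew B p.1 ∧ Skew B' p.2) →
  (∀ p ∈ R, ∀ q ∈ R, ((p.1 * q.1 - q.1 * p.1, p.2 * q.2 - q.2 * p.2) : End ℝ U × End ℝ U') ∈ R) →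
  (∀ y, Skew B y → ∃ y', ((y, y') : End ℝ U × End ℝ U') ∈ R) →
  (∀ y', Skew B' y' → ∃ y, ((y, y') : End ℝ U × End ℝ U') ∈ R) →
  (∀ p ∈ R, p.1 = 0 → p.2 = 0) → (∀ p ∈ R, p.2 = 0 → p.1 = 0) →
  (∀ p ∈ R, Diag p.1 → Diag p.2) →
  ∃ Ψ : U ≃ₗ[ℝ] U', (∀ u v, B' (Ψ u) (Ψ v) = B u v) ∧ ∀ p ∈ R, ∀ u, p.2 (Ψ u) = Ψ (p.1 u)

/-- (GOUR) : Goursat's lemma -/
def S_gour : Prop := ∀ (N : ℕ) (U : Fin N → Type) [∀ i, AddCommGroup (U i)]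
  [∀ i, Module ℝ (U i)] [∀ i, FiniteDimensional ℝ (U i)]
  (B : ∀ i, U i →ₗ[ℝ] U i →ₗ[ℝ] ℝ), (∀ i, Sig2 (B i)) →
  (∀ i, 3 ≤ finrank ℝ (U i)) → (∀ i, finrank ℝ (U i) ≠ 4) →
  ∀ g c : Submodule ℝ (∀ i, End ℝ (U i)), c ≤ g → (∀ y ∈ g, ∀ i, Skew (B i) (y i)) →
  (∀ y ∈ g, ∀ z ∈ c, (fun i => y i * z i - z i * y i) ∈ c) →
  (∀ i, ∀ z, Skew (B i) z → ∃ y ∈ c, y i = z) →
  (∀ y ∈ c, ∃ x ∈ c, ∀ j, Diag (x j) ∧ (Diag (y j) → x j = y j)) →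
  (∀ i j, i ≠ j → ∀ Ψ : U i →ₗ[ℝ] U j, (∀ y ∈ g, ∀ u, y j (Ψ u) = Ψ (y i u)) → Ψ = 0) →
  ∀ i, ∀ z, Skew (B i) z → ∃ y ∈ c, y i = z ∧ ∀ j, j ≠ i → y j = 0

/-! ### Products of K3 surfaces -/

/-- The de Rham-Betti structure on the direct sum of the transcendental parts `T_i` of
`H^2(S_i)(1)`, `i < N`; the basis vector `a` belongs to `T_(c a)`. -/
structure Multi (n N : ℕ) where
  /-- the summand to which a basis vector belongs -/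
  c : Fin n → Fin N
  /-- the intersection forms -/
  B : Matrix (Fin n) (Fin n) ℚ
  symm : ∀ a b, B a b = B b a
  Bblock : ∀ a b, c a ≠ c b → B a b = 0
  /-- the classes of the holomorphic two-forms -/
  ω : Fin N → Fin n → ℂ
  ωblock : ∀ i a, c a ≠ i → ω i a = 0
  iso : ∀ i, bil B (ω i) (ω i) = 0
  pos : ∀ i, 0 < (bil B (ω i) (cj (ω i))).re
  neg : ∀ i, ∀ v : Fin n → ℝ, (∀ a, c a ≠ i → v a = 0) → v ≠ 0 →
    bil B (fun a => (v a : ℂ)) (ω i) = 0 →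
    (bil B (fun a => (v a : ℂ)) (fun a => (v a : ℂ))).re < 0
  /-- the columns of `D` are a basis of the algebraic de Rham cohomology -/
  D : Matrix (Fin n) (Fin n) ℂ
  Dblock : ∀ a b, c a ≠ c b → D a b = 0
  det : D.det ≠ 0
  alg : ∀ i j, IsAlgebraic ℚ (bil B (fun a => D a i) (fun a => D a j))

variable {n N : ℕ} (X : Multi n N)

/-- A rational `k`-linear form on `⊕ T_i` is a de Rham-Betti class. -/
def Multi.IsDRB {k : ℕ} (t : (Fin k → Fin n) → ℚ) : Prop :=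
  ∀ J : Fin k → Fin n, IsAlgebraic ℚ (∑ I : Fin k → Fin n, (t I : ℂ) * ∏ j, X.D (I j) (J j))

/-- The Lie algebra of the de Rham-Betti group of `⊕ T_i`: rational matrices killing all de
Rham-Betti classes on all tensor powers. -/
def Multi.lie : Set (Matrix (Fin n) (Fin n) ℚ) :=
  {x | ∀ (k : ℕ) (t : (Fin k → Fin n) → ℚ), X.IsDRB t → ∀ I : Fin k → Fin n,
    ∑ j, ∑ l, x l (I j) * t (Function.update I j l) = 0}

/-- the Lie algebra acts reductively -/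
def Multi.Reductive : Prop := ∀ M : Submodule ℂ (Fin n → ℂ), (∀ x ∈ X.lie, ∀ v ∈ M, app x v ∈ M) →
  ∃ M' : Submodule ℂ (Fin n → ℂ), (∀ x ∈ X.lie, ∀ v ∈ M', app x v ∈ M') ∧ IsCompl M M'

/-- Hodge endomorphisms of `⊕ T_i`: rational matrices which preserve the three pieces of the Hodge
decomposition -/
def Multi.HodgeEnd (P : Matrix (Fin n) (Fin n) ℚ) : Prop :=
  (∀ i, app P (X.ω i) ∈ Submodule.span ℂ (Set.range X.ω)) ∧
  ∀ v, (∀ i, bil X.B v (X.ω i) = 0 ∧ bil X.B v (cj (X.ω i)) = 0) →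
    ∀ i, bil X.B (app P v) (X.ω i) = 0 ∧ bil X.B (app P v) (cj (X.ω i)) = 0

/-- a complex matrix commuting with the Lie algebra is a combination of Hodge endomorphisms -/
def Multi.EndHodge : Prop := ∀ P : Matrix (Fin n) (Fin n) ℂ,
  (∀ x ∈ X.lie, P * x.map (fun q : ℚ => (q : ℂ)) = x.map (fun q : ℚ => (q : ℂ)) * P) →
  P ∈ Submodule.span ℂ ((fun Q : Matrix (Fin n) (Fin n) ℚ => Q.map (fun q : ℚ => (q : ℂ))) ''
    {Q | X.HodgeEnd Q})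

/-- Hodge endomorphisms are de Rham-Betti (Deligne, Andre) -/
def Multi.Deligne : Prop := ∀ P, X.HodgeEnd P → ∀ i j,
  IsAlgebraic ℚ (bil X.B (app P (fun a => X.D a i)) (fun a => X.D a j))

/-- Hodge endomorphisms of each `T_i` are self-adjoint (totally real multiplication), and there are
no Hodge morphisms between different `T_i` -/
def Multi.RealMult : Prop := ∀ P, X.HodgeEnd P →
  (∀ u v, bil X.B (app P u) v = bil X.B u (app P v)) ∧ ∀ a b, X.c a ≠ X.c b → P a b = 0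

/-- the real subspace of `T_i` on which the Hodge endomorphisms act as on `ω_i`; its dimension is
the rank of `T_i` over its endomorphism field -/
def Multi.U (i : Fin N) : Submodule ℝ (Fin n → ℝ) where
  carrier := {v | (∀ a, X.c a ≠ i → v a = 0) ∧
    ∀ P : Matrix (Fin n) (Fin n) ℚ, X.HodgeEnd P → ∀ c : ℝ,
    app P (X.ω i) = (c : ℂ) • X.ω i → ∀ a, ∑ b, (P a b : ℝ) * v b = c * v a}
  zero_mem' := ⟨fun a _ => rfl, by
    intro P _ c _ i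
    simp⟩
  add_mem' := by
    rintro v w ⟨hv', hv⟩ ⟨hw', hw⟩
    refine ⟨fun a ha => by rw [Pi.add_apply, hv' a ha, hw' a ha, add_zero], ?_⟩
    intro P hP c hc i
    have h1 := hv P hP c hc i
    have h2 := hw P hP c hc i
    simp only [Pi.add_apply, mul_add, Finset.sum_add_distrib, h1, h2]
  smul_mem' := by
    rintro a v ⟨hv', hv⟩
    refine ⟨fun b hb => by rw [Pi.smul_apply, hv' b hb, smul_zero], ?_⟩
    intro P hP c hc i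
    have h1 := hv P hP c hc i
    simp only [Pi.smul_apply, smul_eq_mul]
    rw [show c * (a * v i) = a * (c * v i) by ring, ← h1, Finset.mul_sum]
    exact Finset.sum_congr rfl fun j _ => by ring

/-- `v` has Hodge type `p`. -/
def Multi.HType (v : Fin n → ℂ) (p : ℤ) : Prop :=
  (p = 1 ∧ ∃ i, v = X.ω i) ∨ (p = -1 ∧ ∃ i, v = cj (X.ω i)) ∨
  (p = 0 ∧ ∀ i, bil X.B v (X.ω i) = 0 ∧ bil X.B v (cj (X.ω i)) = 0)

/-- A rational `k`-linear form on `⊕ T_i` is a Hodge class. -/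
def Multi.IsHodge {k : ℕ} (t : (Fin k → Fin n) → ℚ) : Prop :=
  ∀ (v : Fin k → Fin n → ℂ) (p : Fin k → ℤ), (∀ j, X.HType (v j) (p j)) → ∑ j, p j ≠ 0 →
    ev t v = 0

/-- the real Lie algebra: operators killing all de Rham-Betti classes -/
def Multi.hT : Submodule ℝ (End ℝ (Fin n → ℝ)) where
  carrier := {x | ∀ (k : ℕ) (t : (Fin k → Fin n) → ℚ), X.IsDRB t → Kills x (formR t)}
  zero_mem' := by
    intro k t _ v
    simp only [LinearMap.zero_apply]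
    exact Finset.sum_eq_zero fun j _ => (formR t).map_update_zero v j
  add_mem' := by
    intro x y hx hy k t ht v
    have h1 := hx k t ht v
    have h2 := hy k t ht v
    simp only [LinearMap.add_apply, MultilinearMap.map_update_add, Finset.sum_add_distrib, h1, h2,
      add_zero]
  smul_mem' := by
    intro a x hx k t ht v
    have h1 := hx k t ht v
    simp only [LinearMap.smul_apply, MultilinearMap.map_update_smul, ← Finset.smul_sum, h1,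
      smul_zero]

/-- (IRR2) -/
def S_irr2 : Prop := ∀ (n N : ℕ) (X : Multi n N), X.Reductive → X.EndHodge → X.Deligne →
  X.RealMult → ∀ i, CIrrOn (X.hT : Set (End ℝ (Fin n → ℝ))) (X.U i) ∧
    (∀ y ∈ X.hT, Skew (bilR X.B) y) ∧ (∀ y ∈ X.hT, ∀ u ∈ X.U i, y u ∈ X.U i)

/-- (IND2) -/
def S_ind2 : Prop := ∀ (n N : ℕ) (X : Multi n N), X.Reductive → X.EndHodge → X.Deligne →
  X.RealMult → ∀ i j, i ≠ j → ∀ Ψ : X.U i →ₗ[ℝ] X.U j,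
    (∀ y ∈ X.hT, ∀ u u' : X.U i, y (u : Fin n → ℝ) = (u' : Fin n → ℝ) →
      y (Ψ u : Fin n → ℝ) = (Ψ u' : Fin n → ℝ)) → Ψ = 0

/-- (HODGE2) -/
def S_hodge2 : Prop := ∀ (n N : ℕ) (X : Multi n N),
  (∀ i, ∀ y : End ℝ (Fin n → ℝ), Skew (bilR X.B) y →
    (∀ v, (∀ u ∈ X.U i, bilR X.B u v = 0) → y v = 0) → y ∈ X.hT) →
  ∀ (k : ℕ) (t : (Fin k → Fin n) → ℚ), X.IsDRB t → X.IsHodge t

/-- (MAIN2) -/
def S_main2 : Prop := ∀ (n N : ℕ) (X : Multi n N), X.Reductive → X.EndHodge → X.Deligne →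
  X.RealMult → (∀ i, 3 ≤ finrank ℝ (X.U i) ∧ finrank ℝ (X.U i) ≠ 4 ∧ finrank ℝ (X.U i) ≠ 5) →
  ∀ i, ∀ y : End ℝ (Fin n → ℝ), Skew (bilR X.B) y →
    (∀ v, (∀ u ∈ X.U i, bilR X.B u v = 0) → y v = 0) → y ∈ X.hT

end

end Pool.Agent.W544.K3
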