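import Pool.Agent.W544.K3.Defs3

/-!
# Hypotheses at the level of de Rham-Betti objects (definitions and statements of the parts)
-/

open Module Finset

namespace Pool.Agent.W544.K3

noncomputable section

/-- a rational matrix as a complex matrix -/
def mC {n : ℕ} (P : Matrix (Fin n) (Fin n) ℚ) : Matrix (Fin n) (Fin n) ℂ :=
  P.map (fun q : ℚ => (q : ℂ))

variable {n N : ℕ} (X : Multi n N)

/-- `P` is a de Rham-Betti endomorphism of `⊕ T_i`: it maps de Rham vectors to de Rham vectors. -/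
def Multi.DREnd (P : Matrix (Fin n) (Fin n) ℚ) : Prop :=
  ∀ i j, IsAlgebraic ℚ ((X.D⁻¹ * mC P * X.D) i j)

/-- De Rham-Betti endomorphisms are Hodge endomorphisms (Wuestholz, Kreutz-Shen-Vial). -/
def Multi.EndIsHodge : Prop := ∀ P, X.DREnd P → X.HodgeEnd P

/-- Hodge endomorphisms are de Rham-Betti endomorphisms (Deligne, Andre). -/
def Multi.HodgeIsDR : Prop := ∀ P, X.HodgeEnd P → X.DREnd P

/-- `U` is (the complexification of) a de Rham-Betti subobject of `⊕ T_i`. -/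
def Multi.IsSub (U : Submodule ℂ (Fin n → ℂ)) : Prop :=
  U ≤ Submodule.span ℂ {u | u ∈ U ∧ ∀ i, ∃ q : ℚ, u i = (q : ℂ)} ∧
  U ≤ Submodule.span ℂ {u | u ∈ U ∧ ∀ i, IsAlgebraic ℚ ((X.D⁻¹.mulVec u) i)}

/-- The de Rham-Betti object `⊕ T_i` is semisimple: every subobject is the image of an idempotent
endomorphism (Wuestholz). -/
def Multi.Semisimple : Prop := ∀ U : Submodule ℂ (Fin n → ℂ), X.IsSub U →
  ∃ p : Matrix (Fin n) (Fin n) ℚ, X.DREnd p ∧ (∀ u ∈ U, app p u = u) ∧ ∀ v, app p v ∈ U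

/-- (DER4) -/
def S_der4 : Prop := ∀ (n N : ℕ) (X : Multi n N),
  (∀ δ : Derivation ℤ ℂ ℂ, X.D.map δ * X.D⁻¹ ∈ Submodule.span ℂ (mC '' X.lie)) ∧
  ∀ P : Matrix (Fin n) (Fin n) ℚ, (∀ x ∈ X.lie, P * x = x * P) → X.DREnd P

/-- (END4) -/
def S_end4 : Prop := ∀ (n N : ℕ) (X : Multi n N), X.EndIsHodge → X.HodgeIsDR →
  X.EndHodge ∧ X.Deligne ∧
    ∀ P : Matrix (Fin n) (Fin n) ℚ, X.HodgeEnd P → ∀ x ∈ X.lie, P * x = x * P

/-- (SS4) -/
def S_ss4 : Prop := ∀ (n N : ℕ) (X : Multi n N), X.EndIsHodge → X.HodgeIsDR → X.Semisimple →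
  ∀ f : Matrix (Fin n) (Fin n) ℚ, (∀ P, X.HodgeEnd P → P * f = f * P) →
    f ∈ Algebra.adjoin ℚ X.lie

/-- (IRR4) -/
def S_irr4 : Prop := ∀ (n N : ℕ) (X : Multi n N), X.EndIsHodge → X.HodgeIsDR → X.Semisimple →
  X.RealMult → ∀ i, CIrrOn (X.hT : Set (End ℝ (Fin n → ℝ))) (X.U i) ∧
    (∀ y ∈ X.hT, Skew (bilR X.B) y) ∧ (∀ y ∈ X.hT, ∀ u ∈ X.U i, y u ∈ X.U i)

end

end Pool.Agent.W544.K3
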