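import Pool.Agent.W417.K3.Ind2

/-!
# Independence (after `Pool.Agent.W417.K3.Ind2`)
-/

open Module Finset

namespace Pool.Agent.W544.K3.Ind4

open Pool.Agent.W544.K3 Pool.Agent.W417.K3.Ind2

noncomputable section

variable {n N : ℕ} (X : Multi n N)

theorem ind4X (hE : X.EndHodge) (hM : X.RealMult) (hskew : ∀ y ∈ X.hT, Skew (bilR X.B) y)
    (i : Fin N) (hstab : ∀ y ∈ X.hT, ∀ u ∈ X.U i, y u ∈ X.U i) (j : Fin N) (hij : i ≠ j)
    (Ψ : X.U i →ₗ[ℝ] X.U j)
    (hΨ : ∀ y ∈ X.hT, ∀ u u' : X.U i, y (u : Fin n → ℝ) = (u' : Fin n → ℝ) →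
        y (Ψ u : Fin n → ℝ) = (Ψ u' : Fin n → ℝ)) : Ψ = 0 := by
  have hc := isCompl_U X i
  let π : (Fin n → ℝ) →ₗ[ℝ] X.U i := Submodule.projectionOnto _ _ hc
  let P : End ℝ (Fin n → ℝ) := (X.U j).subtype ∘ₗ Ψ ∘ₗ π
  have hπ : ∀ u : X.U i, π u = u := fun u => Submodule.projectionOnto_apply_left hc u
  have hπ' : ∀ w ∈ orth (bilR X.B) (X.U i), π w = 0 := fun w hw =>
    Submodule.projectionOnto_apply_of_mem_right hc hw
  have hcomm : ∀ y ∈ X.hT, ∀ v, P (y v) = y (P v) := by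
    intro y hy v
    have hv : v ∈ X.U i ⊔ orth (bilR X.B) (X.U i) := by
      rw [hc.sup_eq_top]
      exact Submodule.mem_top
    obtain ⟨u, hu, w, hw, rfl⟩ := Submodule.mem_sup.1 hv
    have hyw : y w ∈ orth (bilR X.B) (X.U i) := by
      intro u' hu'
      have h1 := hskew y hy u' w
      rw [hw _ (hstab y hy u' hu'), zero_add] at h1
      exact h1
    have h1 : π (u + w) = ⟨u, hu⟩ := by
      rw [map_add, hπ' w hw, add_zero]
      exact hπ ⟨u, hu⟩
    have h2 : π (y (u + w)) = ⟨y u, hstab y hy u hu⟩ := by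
      rw [map_add, map_add, hπ' _ hyw, add_zero]
      exact hπ ⟨y u, hstab y hy u hu⟩
    change ((Ψ (π (y (u + w))) : X.U j) : Fin n → ℝ) = y ((Ψ (π (u + w)) : X.U j) : Fin n → ℝ)
    rw [h1, h2]
    exact (hΨ y hy ⟨u, hu⟩ ⟨y u, hstab y hy u hu⟩ rfl).symm
  let MP : Matrix (Fin n) (Fin n) ℝ := LinearMap.toMatrix' P
  have hMP : ∀ v a, P v a = ∑ b, MP a b * v b := by
    intro v a
    have h1 : P = Matrix.toLin' MP := (Matrix.toLin'_toMatrix' P).symm
    conv_lhs => rw [h1]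
    rw [Matrix.toLin'_apply]
    rfl
  have hmem : MP.map (fun q : ℝ => (q : ℂ)) ∈ Submodule.span ℂ
      ((fun Q : Matrix (Fin n) (Fin n) ℚ => Q.map (fun q : ℚ => (q : ℂ))) ''
        {Q | X.HodgeEnd Q}) := by
    refine hE _ fun x hx => ?_
    have h1 : P * opR x = opR x * P := LinearMap.ext fun v => hcomm _ (lie_mem X x hx) v
    have h2 := congrArg LinearMap.toMatrix' h1
    rw [LinearMap.toMatrix'_mul, LinearMap.toMatrix'_mul] at h2
    have h3 : LinearMap.toMatrix' (opR x) = x.map (fun q : ℚ => (q : ℝ)) :=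
      LinearMap.toMatrix'_toLin' _
    rw [h3] at h2
    have h4 := congrArg (fun M : Matrix (Fin n) (Fin n) ℝ => M.map (Complex.ofRealHom : ℝ →+* ℂ)) h2
    simp only [Matrix.map_mul] at h4
    have h5 : (x.map (fun q : ℚ => (q : ℝ))).map (Complex.ofRealHom : ℝ →+* ℂ) =
        x.map (fun q : ℚ => (q : ℂ)) := by
      ext a b
      simp
    rw [h5] at h4
    exact h4
  have hblock : ∀ M ∈ Submodule.span ℂ
      ((fun Q : Matrix (Fin n) (Fin n) ℚ => Q.map (fun q : ℚ => (q : ℂ))) ''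
        {Q | X.HodgeEnd Q}), ∀ a b, X.c a ≠ X.c b → M a b = 0 := by
    intro M hM'
    induction hM' using Submodule.span_induction with
    | mem M h =>
      obtain ⟨Q, hQ, rfl⟩ := h
      intro a b hab
      change ((Q a b : ℚ) : ℂ) = 0
      rw [(hM Q hQ).2 a b hab, Rat.cast_zero]
    | zero => intro a b _; rfl
    | add M M' _ _ h h' =>
      intro a b hab
      rw [Matrix.add_apply, h a b hab, h' a b hab, add_zero]
    | smul z M _ h =>
      intro a b hab
      rw [Matrix.smul_apply, h a b hab, smul_zero]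
  have hMP0 : ∀ a b, X.c a ≠ X.c b → MP a b = 0 := by
    intro a b hab
    have h1 := hblock _ hmem a b hab
    rw [Matrix.map_apply] at h1
    exact_mod_cast h1
  refine LinearMap.ext fun u => ?_
  have h1 : P (u : Fin n → ℝ) = ((Ψ u : X.U j) : Fin n → ℝ) := by
    change ((Ψ (π (u : Fin n → ℝ)) : X.U j) : Fin n → ℝ) = _
    rw [hπ u]
  refine Subtype.ext ?_
  rw [← h1]
  funext a
  change P (u : Fin n → ℝ) a = 0
  by_cases ha : X.c a = i
  · rw [h1]
    exact (Ψ u).2.1 a (by rw [ha]; exact hij)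
  · rw [hMP]
    refine Finset.sum_eq_zero fun b _ => ?_
    by_cases hb : X.c b = i
    · rw [hMP0 a b (by rw [hb]; exact ha), zero_mul]
    · rw [u.2.1 b hb, mul_zero]

end

end Pool.Agent.W544.K3.Ind4
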