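import Pool.Agent.W544.K3.Main2
import Pool.Agent.W544.K3.Core
import Pool.Agent.W544.K3.Ind4
import Pool.Agent.W249.K3.Lie
import Pool.Agent.W22.K3.LogQ
import Pool.Agent.W52.K3.LogT
import Pool.Agent.W22.K3.Exp
import Pool.Agent.W52.K3.Tr
import Pool.Agent.W721.K3.Dens
import Pool.Agent.W505.K3.Inner
import Pool.Agent.W368.K3.Comp
import Pool.Agent.W613.K3_GRADE
import Pool.Agent.W544.K3.Clos52
import Pool.Agent.W505.K3.Struct
import Pool.Agent.W337.K3.Reh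
import Pool.Agent.W481.K3.RK
import Pool.Agent.W351.K3.Eq
import Pool.Agent.W565.K3.Ney
import Pool.Agent.W565.K3.Nem
import Pool.Agent.W565.K3.Ne
import Pool.Agent.W253.K3.Hyp2
import Pool.Agent.W340.K3.Simp
import Pool.Agent.W515.K3.Gour
import Pool.Agent.W976.K3.HODGE2
import Pool.Agent.W976.K3.IRR2
import Pool.Agent.W52.K3.Log2
import Pool.Agent.W52.K3.ReG
import Pool.Agent.W335.K3.RIGID

/-!
# Assembly
-/

open Module

namespace Pool.Agent.W544.K3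

theorem core_all : S_core := by
  have hcl : S_clos := Pool.Agent.W544.K3.Clos52.clos Pool.Agent.W613.K3.grade
  have hreH : S_reH := Pool.Agent.W337.K3.reH
  exact core Pool.Agent.W505.K3.struct (Pool.Agent.W481.K3.rk hcl)
    (Pool.Agent.W351.K3Eq.eq hcl hreH)
    (Pool.Agent.W565.K3.ne hreH (Pool.Agent.W565.K3.neY hcl) (Pool.Agent.W565.K3.neM hcl))

theorem gour_all : S_gour :=
  Pool.Agent.W515.K3.gour Pool.Agent.W340.K3.Simp.simp
    (Pool.W335.K3.rigid Pool.Agent.W505.K3.struct)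

theorem main2X_all {n N : ℕ} (X : Multi n N)
    (hI : ∀ i, CIrrOn (X.hT : Set (End ℝ (Fin n → ℝ))) (X.U i) ∧
      (∀ y ∈ X.hT, Skew (bilR X.B) y) ∧ (∀ y ∈ X.hT, ∀ u ∈ X.U i, y u ∈ X.U i))
    (hE : X.EndHodge) (hM : X.RealMult)
    (hdim : ∀ i, 3 ≤ finrank ℝ (X.U i) ∧ finrank ℝ (X.U i) ≠ 4 ∧ finrank ℝ (X.U i) ≠ 5) :
    ∀ i, ∀ y : End ℝ (Fin n → ℝ), Skew (bilR X.B) y →
      (∀ v, (∀ u ∈ X.U i, bilR X.B u v = 0) → y v = 0) → y ∈ X.hT :=
  main2X (Pool.Agent.W52.K3.Log2.log2 Pool.Agent.W22.K3.logQ Pool.Agent.W52.K3.LogT.logT)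
    (Pool.Agent.W253.K3.hyp2 Pool.Agent.W22.K3.exp
      (Pool.Agent.W368.K3.comp Pool.Agent.W52.K3.Tr.tr Pool.Agent.W721.K3.dens
        Pool.Agent.W505.K3.Inner.inner))
    Pool.Agent.W52.K3.ReG.reG Pool.Agent.W249.K3.lie core_all gour_all n N X hI
    (fun i j hij Ψ hΨ => Ind4.ind4X X hE hM (hI i).2.1 i (hI i).2.2 j hij Ψ hΨ) hdim

end Pool.Agent.W544.K3
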