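import Pool.Agent.W544.K3.Final2
import Pool.Agent.W544.K3.Defs4
import Pool.Agent.W544.K3.Alg
import Pool.Agent.W32.K3.Der4
import Pool.Agent.W515.K3.End4
import Pool.Agent.W308.K3.SS4
import Pool.Agent.W308.K3.IRR4
import Pool.Agent.W32.K3.Ext2
import Pool.Agent.W417.K3.Fft2B

/-!
# Assembly with hypotheses at the level of de Rham-Betti objects
-/

open Module Finset

namespace Pool.Agent.W544.K3

noncomputable section

variable {n N : ℕ} (X : Multi n N)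

theorem end_all : S_end4 := Pool.Agent.W515.K3.end4 Pool.Agent.W32.K3D.der4

theorem irr_all : S_irr4 :=
  Pool.Agent.W308.K3.IRR4.irr4 Pool.Agent.W32.K3D.der4 end_all
    (Pool.Agent.W308.K3.SS4.ss4 Pool.Agent.W32.K3D.der4 end_all)

/-- The Lie algebra of the de Rham-Betti group of `⊕ T_i` contains all `so(U_i)`. -/
theorem lie_all (h1 : X.EndIsHodge) (h2 : X.HodgeIsDR) (h3 : X.Semisimple) (h4 : X.RealMult)
    (hdim : ∀ i, 3 ≤ finrank ℝ (X.U i) ∧ finrank ℝ (X.U i) ≠ 4 ∧ finrank ℝ (X.U i) ≠ 5) :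
    ∀ i, ∀ y : End ℝ (Fin n → ℝ), Skew (bilR X.B) y →
      (∀ v, (∀ u ∈ X.U i, bilR X.B u v = 0) → y v = 0) → y ∈ X.hT :=
  main2X_all X (irr_all n N X h1 h2 h3 h4) (end_all n N X h1 h2).1 h4 hdim

/-- All de Rham-Betti classes on all tensor powers are Hodge classes. -/
theorem hodge_all (h1 : X.EndIsHodge) (h2 : X.HodgeIsDR) (h3 : X.Semisimple) (h4 : X.RealMult)
    (hdim : ∀ i, 3 ≤ finrank ℝ (X.U i) ∧ finrank ℝ (X.U i) ≠ 4 ∧ finrank ℝ (X.U i) ≠ 5)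
    (k : ℕ) (t : (Fin k → Fin n) → ℚ) (ht : X.IsDRB t) : X.IsHodge t :=
  Pool.Agent.W976.K3.hodge2 n N X (lie_all X h1 h2 h3 h4 hdim) k t ht

theorem hodge'_all (h1 : X.EndIsHodge) (h2 : X.HodgeIsDR) (h3 : X.Semisimple) (h4 : X.RealMult)
    (hdim : ∀ i, 3 ≤ finrank ℝ (X.U i) ∧ finrank ℝ (X.U i) ≠ 4 ∧ finrank ℝ (X.U i) ≠ 5)
    (s m : ℕ) (t : (Fin m → Fin s ⊕ Fin n) → ℚ) (ht : X.IsDRB' t) : X.IsHodge' t :=
  Pool.Agent.W32.K3.ext2a n N s X (hodge_all X h1 h2 h3 h4 hdim) m t ht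

theorem alg_all (h1 : X.EndIsHodge) (h2 : X.HodgeIsDR) (h3 : X.Semisimple) (h4 : X.Scalar)
    (hdim : ∀ i, 3 ≤ X.rk i ∧ X.rk i ≠ 4 ∧ X.rk i ≠ 5) (hN : 0 < N)
    (s m : ℕ) (t : (Fin m → Fin s ⊕ Fin n) → ℚ) (ht : X.IsDRB' t)
    (hs : ∀ I, t I ≠ 0 → ∀ i,
      (univ.filter fun j => ∃ a, I j = Sum.inr a ∧ X.c a = i).card < X.rk i) :
    t ∈ X.algClasses s m :=
  Pool.Agent.W32.K3.ext2b n N s hN X
    (drb_pairs X Pool.Agent.W417.K3.Fft2.fft2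
      (irr_all n N X h1 h2 h3 (scalar_real X h4)) (end_all n N X h1 h2).1 h4 hdim) m t ht hs

end

end Pool.Agent.W544.K3
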