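import Pool.Agent.W544.K3.Final3

/-!
# Degree two
-/

open Module Finset

namespace Pool.Agent.W544.K3

open Pool.Agent.W565.K3 (sum_two tQ)
open Pool.Agent.W976.K3 (tQ_drbM bilR_nondegM bil_block bil_cjM)

noncomputable section

variable {n N : ℕ} (X : Multi n N)

/-- the bilinear form as a bilinear map -/
def BL (B : Matrix (Fin n) (Fin n) ℚ) : (Fin n → ℂ) →ₗ[ℂ] (Fin n → ℂ) →ₗ[ℂ] ℂ :=
  Matrix.toLinearMap₂' ℂ (mC B)

theorem BL_apply (B : Matrix (Fin n) (Fin n) ℚ) (u v : Fin n → ℂ) : BL B u v = bil B u v := by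
  simp [BL, bil, mC, Matrix.toLinearMap₂'_apply, mul_comm, mul_left_comm]

theorem bil_symm (u v : Fin n → ℂ) : bil X.B u v = bil X.B v u := by
  unfold bil
  rw [Finset.sum_comm]
  refine Finset.sum_congr rfl fun a _ => Finset.sum_congr rfl fun b _ => ?_
  rw [X.symm b a]
  ring

theorem bil_nondeg (h : Fin n → ℂ) (hw : ∀ w : Fin n → ℝ, bil X.B h (fun a => (w a : ℂ)) = 0) :
    h = 0 := by
  have h1 : (fun a => (h a).re) = 0 := by
    apply bilR_nondegM X
    intro w
    have := congrArg Complex.re (hw w)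
    rw [bilR_apply]
    simp only [bil, Complex.re_sum, Complex.zero_re] at this
    rw [← this]
    refine Finset.sum_congr rfl fun i _ => Finset.sum_congr rfl fun j _ => ?_
    simp
  have h2 : (fun a => (h a).im) = 0 := by
    apply bilR_nondegM X
    intro w
    have := congrArg Complex.im (hw w)
    rw [bilR_apply]
    simp only [bil, Complex.im_sum, Complex.zero_im] at this
    rw [← this]
    refine Finset.sum_congr rfl fun i _ => Finset.sum_congr rfl fun j _ => ?_
    simp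
  funext a
  exact Complex.ext (congrFun h1 a) (congrFun h2 a)

theorem om_om (i j : Fin N) : bil X.B (X.ω i) (X.ω j) = 0 := by
  by_cases h : i = j
  · subst h
    exact X.iso i
  · exact bil_block X h _ _ (X.ωblock i) (X.ωblock j)

theorem bil_cj (u v : Fin n → ℂ) : bil X.B (cj u) (cj v) = (starRingEnd ℂ) (bil X.B u v) := by
  unfold bil cj
  simp only [map_sum, map_mul]
  refine Finset.sum_congr rfl fun a _ => Finset.sum_congr rfl fun b _ => ?_
  congr 2
  simp

theorem cj_cj (u : Fin n → ℂ) : cj (cj u) = u := by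
  funext a
  simp [cj]

theorem cjom_cjom (i j : Fin N) : bil X.B (cj (X.ω i)) (cj (X.ω j)) = 0 := by
  rw [bil_cj, om_om, map_zero]

theorem om_cjom (i j : Fin N) (h : i ≠ j) : bil X.B (X.ω i) (cj (X.ω j)) = 0 := by
  refine bil_block X h _ _ (X.ωblock i) fun a ha => ?_
  simp [cj, X.ωblock j a ha]

/-- type zero -/
def H0 (h : Fin n → ℂ) : Prop := ∀ i, bil X.B h (X.ω i) = 0 ∧ bil X.B h (cj (X.ω i)) = 0

theorem mem_span_om (v : Fin n → ℂ) (h1 : ∀ j, bil X.B v (X.ω j) = 0)
    (h2 : ∀ h, H0 X h → bil X.B v h = 0) : v ∈ Submodule.span ℂ (Set.range X.ω) := by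
  set c : Fin N → ℂ := fun j => bil X.B (X.ω j) (cj (X.ω j)) with hc
  have hc0 : ∀ j, c j ≠ 0 := fun j => bil_cjM X j
  set s : Fin n → ℂ := ∑ j, (bil X.B v (cj (X.ω j)) / c j) • X.ω j with hs
  have hsm : s ∈ Submodule.span ℂ (Set.range X.ω) :=
    Submodule.sum_mem _ fun j _ => Submodule.smul_mem _ _ (Submodule.subset_span ⟨j, rfl⟩)
  have hL : ∀ (a : Fin N → ℂ) (w : Fin n → ℂ),
      bil X.B (∑ j, a j • X.ω j) w = ∑ j, a j * bil X.B (X.ω j) w := by
    intro a w
    rw [← BL_apply]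
    simp [BL_apply]
  have hL' : ∀ (a : Fin N → ℂ) (w : Fin n → ℂ),
      bil X.B (∑ j, a j • cj (X.ω j)) w = ∑ j, a j * bil X.B (cj (X.ω j)) w := by
    intro a w
    rw [← BL_apply]
    simp [BL_apply]
  have hsub : ∀ u u' w : Fin n → ℂ, bil X.B (u - u') w = bil X.B u w - bil X.B u' w := by
    intro u u' w
    simp only [← BL_apply, map_sub, LinearMap.sub_apply]
  have hadd : ∀ u u' w : Fin n → ℂ, bil X.B w (u + u') = bil X.B w u + bil X.B w u' := by
    intro u u' w
    simp only [← BL_apply, map_add]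
  have hvs : v - s = 0 := by
    apply bil_nondeg X
    intro w'
    set w : Fin n → ℂ := fun a => (w' a : ℂ) with hw
    set p : Fin n → ℂ := ∑ j, (bil X.B w (cj (X.ω j)) / c j) • X.ω j with hp
    set q : Fin n → ℂ := ∑ j, (bil X.B w (X.ω j) / c j) • cj (X.ω j) with hq
    have hdec : w = (w - p - q) + (p + q) := by abel
    have hz : H0 X (w - p - q) := by
      intro i
      rw [hsub, hsub, hsub, hsub, hp, hq, hL, hL, hL', hL']
      constructor
      · rw [Finset.sum_eq_zero (fun j _ => by rw [om_om, mul_zero]),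
          Finset.sum_eq_single i]
        · rw [bil_symm X (cj (X.ω i)) (X.ω i)]
          change _ - 0 - _ / c i * c i = 0
          rw [div_mul_cancel₀ _ (hc0 i)]
          ring
        · intro j _ hj
          rw [bil_symm X (cj (X.ω j)) (X.ω i), om_cjom X i j (Ne.symm hj), mul_zero]
        · intro h; exact absurd (Finset.mem_univ i) h
      · rw [Finset.sum_eq_single i]
        · rw [Finset.sum_eq_zero (fun j _ => by rw [cjom_cjom, mul_zero])]
          change _ - _ / c i * c i - 0 = 0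
          rw [div_mul_cancel₀ _ (hc0 i)]
          ring
        · intro j _ hj
          rw [om_cjom X j i hj, mul_zero]
        · intro h; exact absurd (Finset.mem_univ i) h
    have hvo : ∀ j, bil X.B (v - s) (X.ω j) = 0 := by
      intro j
      rw [hsub, h1, hs, hL, Finset.sum_eq_zero (fun k _ => by rw [om_om, mul_zero]), sub_zero]
    have hvc : ∀ j, bil X.B (v - s) (cj (X.ω j)) = 0 := by
      intro j
      rw [hsub, hs, hL, Finset.sum_eq_single j]
      · change _ - _ / c j * c j = 0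
        rw [div_mul_cancel₀ _ (hc0 j)]
        ring
      · intro k _ hk
        rw [om_cjom X k j hk, mul_zero]
      · intro h; exact absurd (Finset.mem_univ j) h
    have hvz : ∀ h, H0 X h → bil X.B (v - s) h = 0 := by
      intro h hh
      rw [hsub, h2 h hh, hs, hL, Finset.sum_eq_zero, sub_zero]
      intro k _
      rw [bil_symm X (X.ω k) h, (hh k).1, mul_zero]
    rw [hdec, hadd, hadd, hvz _ hz, bil_symm X (v - s) p, bil_symm X (v - s) q, hp, hq, hL, hL',
      Finset.sum_eq_zero, Finset.sum_eq_zero]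
    · ring
    · intro j _
      rw [bil_symm X (cj (X.ω j)) (v - s), hvc, mul_zero]
    · intro j _
      rw [bil_symm X (X.ω j) (v - s), hvo, mul_zero]
  rw [sub_eq_zero.1 hvs]
  exact hsm

theorem hodgeEnd_of (P : Matrix (Fin n) (Fin n) ℚ)
    (h : ∀ (u v : Fin n → ℂ) (p q : ℤ), X.HType u p → X.HType v q → p + q ≠ 0 →
      bil X.B (app P u) v = 0) : X.HodgeEnd P := by
  have t1 : ∀ i, X.HType (X.ω i) 1 := fun i => Or.inl ⟨rfl, i, rfl⟩
  have t2 : ∀ i, X.HType (cj (X.ω i)) (-1) := fun i => Or.inr (Or.inl ⟨rfl, i, rfl⟩)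
  have t3 : ∀ v, H0 X v → X.HType v 0 := fun v hv => Or.inr (Or.inr ⟨rfl, hv⟩)
  refine ⟨fun i => ?_, fun v hv i => ⟨?_, ?_⟩⟩
  · refine mem_span_om X _ (fun j => ?_) (fun w hw => ?_)
    · exact h _ _ 1 1 (t1 i) (t1 j) (by norm_num)
    · exact h _ _ 1 0 (t1 i) (t3 w hw) (by norm_num)
  · exact h _ _ 0 1 (t3 v hv) (t1 i) (by norm_num)
  · exact h _ _ 0 (-1) (t3 v hv) (t2 i) (by norm_num)

theorem drEnd_alg (P : Matrix (Fin n) (Fin n) ℚ) (hdr : X.DREnd P) (i j : Fin n) :
    IsAlgebraic ℚ (bil X.B (app P (fun a => X.D a i)) (fun a => X.D a j)) := by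
  unfold Multi.DREnd at hdr
  set M := X.D⁻¹ * mC P * X.D with hM
  have h1 : mC P * X.D = X.D * M := by
    rw [hM, Matrix.mul_assoc, Matrix.mul_nonsing_inv_cancel_left _ _
      (isUnit_iff_ne_zero.mpr X.det)]
  have h2 : app P (fun a => X.D a i) = fun a => ∑ l, X.D a l * M l i := by
    funext a
    have := congrFun (congrFun h1 a) i
    rw [Matrix.mul_apply, Matrix.mul_apply] at this
    exact this
  rw [h2]
  have h3 : bil X.B (fun a => ∑ l, X.D a l * M l i) (fun a => X.D a j) =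
      ∑ l, M l i * bil X.B (fun a => X.D a l) (fun a => X.D a j) := by
    unfold bil
    simp only [Finset.sum_mul, Finset.mul_sum]
    calc _ = ∑ a, ∑ l, ∑ b, X.D a l * M l i * (X.B a b : ℂ) * X.D b j :=
          Finset.sum_congr rfl fun a _ => Finset.sum_comm
      _ = ∑ l, ∑ a, ∑ b, X.D a l * M l i * (X.B a b : ℂ) * X.D b j := Finset.sum_comm
      _ = _ := Finset.sum_congr rfl fun l _ => Finset.sum_congr rfl fun a _ =>
          Finset.sum_congr rfl fun b _ => by ring
  rw [h3]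
  have h4 : ∀ l, IsAlgebraic ℚ (M l i * bil X.B (fun a => X.D a l) (fun a => X.D a j)) :=
    fun l => (hdr l i).mul (X.alg l j)
  exact isAlgebraic_iff_isIntegral.mpr (IsIntegral.sum _ fun l _ =>
    isAlgebraic_iff_isIntegral.mp (h4 l))

theorem bil_app (P : Matrix (Fin n) (Fin n) ℚ) (u v : Fin n → ℂ) :
    bil X.B (app P u) v = ∑ i, ∑ j, ((P.transpose * X.B) i j : ℂ) * (u i * v j) := by
  have e1 : ∀ i j, ((P.transpose * X.B) i j : ℚ) = ∑ l, P l i * X.B l j := by
    intro i j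
    rw [Matrix.mul_apply]
    rfl
  simp only [e1]
  unfold bil app
  push_cast
  simp only [Finset.sum_mul]
  calc ∑ l, ∑ j, ∑ i, (P l i : ℂ) * u i * (X.B l j : ℂ) * v j
      = ∑ l, ∑ i, ∑ j, (P l i : ℂ) * u i * (X.B l j : ℂ) * v j :=
        Finset.sum_congr rfl fun l _ => Finset.sum_comm
    _ = ∑ i, ∑ l, ∑ j, (P l i : ℂ) * u i * (X.B l j : ℂ) * v j := Finset.sum_comm
    _ = ∑ i, ∑ j, ∑ l, (P l i : ℂ) * u i * (X.B l j : ℂ) * v j :=
        Finset.sum_congr rfl fun i _ => Finset.sum_comm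
    _ = _ := Finset.sum_congr rfl fun i _ => Finset.sum_congr rfl fun j _ =>
        Finset.sum_congr rfl fun l _ => by ring

theorem tQ_drEnd (P : Matrix (Fin n) (Fin n) ℚ) (hdr : X.DREnd P) :
    X.IsDRB (tQ (P.transpose * X.B)) := by
  apply tQ_drbM
  intro a b
  rw [← bil_app X P (fun i => X.D i a) (fun j => X.D j b)]
  exact drEnd_alg X P hdr a b

/-- the part of degree two of the conjecture -/
theorem endIsHodge_of_two (h : ∀ t : (Fin 2 → Fin n) → ℚ, X.IsDRB t → X.IsHodge t) :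
    X.EndIsHodge := by
  intro P hP
  refine hodgeEnd_of X P fun u v p q hu hv hpq => ?_
  have h1 := h _ (tQ_drEnd X P hP) ![u, v] ![p, q] (by
    intro j
    fin_cases j
    · exact hu
    · exact hv) (by rw [Fin.sum_univ_two]; exact hpq)
  rw [bil_app, ← h1]
  unfold ev
  rw [← sum_two]
  refine Finset.sum_congr rfl fun I _ => ?_
  rw [Fin.prod_univ_two]
  rfl

/-- the identification of indices without algebraic classes -/
def e0 (n : ℕ) : Fin 0 ⊕ Fin n ≃ Fin n := Equiv.emptySum (Fin 0) (Fin n)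

theorem e0_D (x y : Fin 0 ⊕ Fin n) : X.D' 0 x y = X.D (e0 n x) (e0 n y) := by
  rcases x with x | x
  · exact x.elim0
  · rcases y with y | y
    · exact y.elim0
    · rfl

theorem drb'_of {m : ℕ} (t : (Fin m → Fin n) → ℚ) (ht : X.IsDRB t) :
    X.IsDRB' (s := 0) (fun I : Fin m → Fin 0 ⊕ Fin n => t (fun j => e0 n (I j))) := by
  intro J
  have h := ht (fun j => e0 n (J j))
  convert h using 1
  refine Fintype.sum_equiv (Equiv.arrowCongr (Equiv.refl (Fin m)) (e0 n)) _ _ fun I => ?_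
  congr 1
  refine Finset.prod_congr rfl fun j _ => ?_
  exact e0_D X _ _

theorem gen_two (f : (Fin 2 → Fin 0 ⊕ Fin n) → ℚ) (hf : f ∈ X.algClasses 0 2) :
    ∃ q : Fin N → ℚ, ∀ a b, f ![Sum.inr a, Sum.inr b] = q (X.c a) * X.B a b := by
  refine Submodule.span_induction ?_ ?_ ?_ ?_ hf
  · rintro f ⟨σ, ν, κ, hσ, h⟩
    by_cases h0 : σ 0 = 0
    · refine ⟨0, fun a b => ?_⟩
      rw [h, Finset.prod_eq_zero (i := (0 : Fin 2))]
      · simp
      · simp [h0]
      · rfl
    · have h1 : σ 0 = 1 := by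
        have : ∀ x : Fin 2, x ≠ 0 → x = 1 := by decide
        exact this _ h0
      have h2 : σ 1 = 0 := by rw [← h1, hσ]
      refine ⟨fun i => if i = κ 0 then 1 else 0, fun a b => ?_⟩
      rw [h]
      have e1 : (univ.filter fun j : Fin 2 => σ j = j) = ∅ := by
        rw [Finset.filter_eq_empty_iff]
        intro j _
        fin_cases j
        · simpa using h0
        · change ¬ σ 1 = 1
          rw [h2]
          decide
      have e2 : (univ.filter fun j : Fin 2 => j < σ j) = {0} := by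
        ext j
        fin_cases j
        · simp [h1]
        · simp [h2]
      rw [e1, e2, Finset.prod_empty, Finset.prod_singleton, h1]
      change 1 * X.blk (κ 0) a b = _
      unfold Multi.blk
      by_cases hc : X.c a = κ 0
      · simp [hc]
      · simp [hc]
  · exact ⟨0, fun a b => by simp⟩
  · rintro f g _ _ ⟨q, hq⟩ ⟨r, hr⟩
    refine ⟨q + r, fun a b => ?_⟩
    rw [Pi.add_apply, hq, hr, Pi.add_apply]
    ring
  · rintro x f _ ⟨q, hq⟩
    refine ⟨x • q, fun a b => ?_⟩
    rw [Pi.smul_apply, hq, Pi.smul_apply, smul_eq_mul, smul_eq_mul]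
    ring

theorem hodgeEnd_diag {P : Matrix (Fin n) (Fin n) ℚ} {q : Fin N → ℚ}
    (h : ∀ a b, P a b = if a = b then q (X.c a) else 0) : X.HodgeEnd P := by
  have hb : ∀ (i : Fin N) (u w : Fin n → ℂ), (∀ a, X.c a ≠ i → w a = 0) →
      bil X.B (app P u) w = (q i : ℂ) * bil X.B u w := by
    intro i u w hw
    simp only [bil, app_scalar X h, Finset.mul_sum]
    refine Finset.sum_congr rfl fun a _ => Finset.sum_congr rfl fun b _ => ?_
    by_cases hb : X.c b = i
    · by_cases hab : X.c a = X.c b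
      · rw [hab, hb]; ring
      · rw [X.Bblock a b hab]; simp
    · rw [hw b hb]; simp
  refine ⟨fun i => ?_, fun v hv i => ⟨?_, ?_⟩⟩
  · have : app P (X.ω i) = (q i : ℂ) • X.ω i := by
      funext a
      rw [app_scalar X h, Pi.smul_apply, smul_eq_mul]
      by_cases ha : X.c a = i
      · rw [ha]
      · rw [X.ωblock i a ha]; simp
    rw [this]
    exact Submodule.smul_mem _ _ (Submodule.subset_span ⟨i, rfl⟩)
  · rw [hb i v _ (X.ωblock i), (hv i).1, mul_zero]
  · rw [hb i v _ (fun a ha => by simp [cj, X.ωblock i a ha]), (hv i).2, mul_zero]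

/-- the part of degree two, in terms of algebraic classes -/
theorem endIsHodge_of_alg
    (h : ∀ t : (Fin 2 → Fin 0 ⊕ Fin n) → ℚ, X.IsDRB' t → t ∈ X.algClasses 0 2) :
    X.EndIsHodge := by
  intro P hP
  obtain ⟨q, hq⟩ := gen_two X _ (h _ (drb'_of X _ (tQ_drEnd X P hP)))
  have hq' : ∀ a b, (P.transpose * X.B) a b = q (X.c a) * X.B a b := fun a b => hq a b
  refine hodgeEnd_diag X (q := q) ?_
  intro l a
  have hv : (fun l : Fin n => (P l a : ℝ) - (if l = a then (q (X.c a) : ℝ) else 0)) = 0 := by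
    apply bilR_nondegM X
    intro w
    rw [bilR_apply, Finset.sum_comm]
    refine Finset.sum_eq_zero fun b _ => ?_
    rw [← Finset.sum_mul]
    have : ∑ l, ((P l a : ℝ) - (if l = a then (q (X.c a) : ℝ) else 0)) * (X.B l b : ℝ) =
        (((P.transpose * X.B) a b - q (X.c a) * X.B a b : ℚ) : ℝ) := by
      rw [Matrix.mul_apply]
      push_cast
      simp only [sub_mul, Finset.sum_sub_distrib, ite_mul, zero_mul, Finset.sum_ite_eq',
        Finset.mem_univ, if_true]
      rfl
    rw [this, hq', sub_self]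
    simp
  have h1 := congrFun hv l
  simp only [Pi.zero_apply] at h1
  by_cases hla : l = a
  · subst hla
    rw [if_pos rfl] at h1 ⊢
    exact_mod_cast sub_eq_zero.1 h1
  · rw [if_neg hla] at h1 ⊢
    rw [sub_zero] at h1
    exact_mod_cast h1

/-- With scalar endomorphisms, Hodge endomorphisms are de Rham-Betti. -/
theorem scalar_dr (hS : X.Scalar) : X.HodgeIsDR := by
  intro P hP
  obtain ⟨q, hq⟩ := hS P hP
  have hc : mC P * X.D = X.D * mC P := by
    ext a b
    rw [Matrix.mul_apply, Matrix.mul_apply]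
    rw [Finset.sum_eq_single a, Finset.sum_eq_single b]
    · simp only [mC, Matrix.map_apply, hq, if_true]
      by_cases hab : X.c a = X.c b
      · rw [hab]; ring
      · rw [X.Dblock a b hab]; simp
    · intro j _ hj
      simp [mC, Matrix.map_apply, hq, hj]
    · intro h'; exact absurd (Finset.mem_univ b) h'
    · intro j _ hj
      simp [mC, Matrix.map_apply, hq, Ne.symm hj]
    · intro h'; exact absurd (Finset.mem_univ a) h'
  intro i j
  rw [Matrix.mul_assoc, hc, Matrix.nonsing_inv_mul_cancel_left _ _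
    (isUnit_iff_ne_zero.mpr X.det)]
  simp only [mC, Matrix.map_apply]
  exact isAlgebraic_algebraMap (P i j)

theorem hodge_of' {m : ℕ} (t : (Fin m → Fin n) → ℚ)
    (h : X.IsHodge' (s := 0) (fun I : Fin m → Fin 0 ⊕ Fin n => t (fun j => e0 n (I j)))) :
    X.IsHodge t := by
  intro v p hp hsum
  have h1 := h (fun j => Sum.elim (fun _ => 0) (v j)) p (fun j => ?_) hsum
  · rw [← h1]
    unfold ev
    symm
    refine Fintype.sum_equiv (Equiv.arrowCongr (Equiv.refl (Fin m)) (e0 n)) _ _ fun I => ?_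
    congr 1
    refine Finset.prod_congr rfl fun j _ => ?_
    rcases hI : I j with x | x
    · exact x.elim0
    · simp only [Sum.elim_inr]
      change v j x = v j (e0 n (I j))
      rw [hI]
      rfl
  · rcases hp j with ⟨h1, i, h2⟩ | ⟨h1, i, h2⟩ | ⟨h1, h2⟩
    · exact Or.inl ⟨h1, i, by rw [h2]⟩
    · exact Or.inr (Or.inl ⟨h1, i, by rw [h2]⟩)
    · exact Or.inr (Or.inr ⟨h1, h2⟩)

/-- The conjecture in degree two and in all degrees. -/
theorem two_iff (hD : X.HodgeIsDR) (hR : X.RealMult)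
    (hdim : ∀ i, 3 ≤ finrank ℝ (X.U i) ∧ finrank ℝ (X.U i) ≠ 4 ∧ finrank ℝ (X.U i) ≠ 5) :
    (X.Semisimple ∧ ∀ t : (Fin 2 → Fin n) → ℚ, X.IsDRB t → X.IsHodge t) ↔
    (X.Semisimple ∧
      (∀ i, ∀ y : End ℝ (Fin n → ℝ), Skew (bilR X.B) y →
        (∀ v, (∀ u ∈ X.U i, bilR X.B u v = 0) → y v = 0) → y ∈ X.hT) ∧
      ∀ (s m : ℕ) (t : (Fin m → Fin s ⊕ Fin n) → ℚ), X.IsDRB' t → X.IsHodge' t) := by
  constructor
  · rintro ⟨hss, h2⟩
    have hE := endIsHodge_of_two X h2
    exact ⟨hss, lie_all X hE hD hss hR hdim,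
      fun s m t ht => hodge'_all X hE hD hss hR hdim s m t ht⟩
  · rintro ⟨hss, -, h⟩
    exact ⟨hss, fun t ht => hodge_of' X t (h 0 2 _ (drb'_of X t ht))⟩

/-- Algebraic classes in degree two and in all degrees. -/
theorem alg_iff (hN : 0 < N) (hS : X.Scalar) (hdim : ∀ i, 3 ≤ X.rk i ∧ X.rk i ≠ 4 ∧ X.rk i ≠ 5) :
    (X.Semisimple ∧ ∀ (s : ℕ) (t : (Fin 2 → Fin s ⊕ Fin n) → ℚ), X.IsDRB' t →
      t ∈ X.algClasses s 2) ↔
    (X.Semisimple ∧ ∀ (s m : ℕ) (t : (Fin m → Fin s ⊕ Fin n) → ℚ), X.IsDRB' t →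
      (∀ I, t I ≠ 0 → ∀ i,
        (univ.filter fun j => ∃ a, I j = Sum.inr a ∧ X.c a = i).card < X.rk i) →
      t ∈ X.algClasses s m) := by
  constructor
  · rintro ⟨hss, h2⟩
    have hE := endIsHodge_of_alg X (h2 0)
    exact ⟨hss, fun s m t ht hs => alg_all X hE (scalar_dr X hS) hss hS hdim hN s m t ht hs⟩
  · rintro ⟨hss, h⟩
    refine ⟨hss, fun s t ht => h s 2 t ht fun I _ i => ?_⟩
    refine lt_of_le_of_lt (Finset.card_le_univ _) ?_
    rw [Fintype.card_fin]
    have := (hdim i).1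
    omega

end

end Pool.Agent.W544.K3
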