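import Pool.Agent.W544.K3.Defs

open Module

namespace Pool.Agent.W544.K3

noncomputable section

/-! ### The decomposition `V = U ⊕ U^⊥` -/

section decomp
variable {V : Type} [AddCommGroup V] [Module ℝ V] [FiniteDimensional ℝ V]
  {B : V →ₗ[ℝ] V →ₗ[ℝ] ℝ} {U : Submodule ℝ V} {p q : V}

/-- the orthogonal complement -/
def orth (B : V →ₗ[ℝ] V →ₗ[ℝ] ℝ) (U : Submodule ℝ V) : Submodule ℝ V where
  carrier := {v | ∀ u ∈ U, B u v = 0}
  zero_mem' := by intro u _; simp
  add_mem' := by intro v w hv hw u hu; rw [map_add, hv u hu, hw u hu, add_zero]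
  smul_mem' := by intro a v hv u hu; rw [map_smul, hv u hu, smul_zero]

omit [FiniteDimensional ℝ V] in
theorem orth_neg (hp : p ∈ U) (hq : q ∈ U) (hs : ∀ u v, B u v = B v u)
    (hn : ∀ v, v ≠ 0 → B v p = 0 → B v q = 0 → B v v < 0) {v : V} (hv : v ∈ orth B U)
    (hv0 : v ≠ 0) : B v v < 0 :=
  hn v hv0 (by rw [hs]; exact hv p hp) (by rw [hs]; exact hv q hq)

theorem isCompl_orth (hp : p ∈ U) (hq : q ∈ U) (hs : ∀ u v, B u v = B v u)
    (hn : ∀ v, v ≠ 0 → B v p = 0 → B v q = 0 → B v v < 0) : IsCompl U (orth B U) := by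
  have h1 : orth B U = LinearMap.BilinForm.orthogonal B U := by
    ext v
    exact LinearMap.BilinForm.mem_orthogonal_iff.symm
  rw [h1]
  have hU : ∀ u ∈ U, (∀ v ∈ U, B u v = 0) → u = 0 := by
    intro u hu huv
    by_contra h0
    have h2 := hn u h0 (huv p hp) (huv q hq)
    rw [huv u hu] at h2
    exact lt_irrefl _ h2
  refine LinearMap.BilinForm.isCompl_orthogonal_of_restrict_nondegenerate ?_ ?_
  · intro u v huv
    rw [hs]; exact huv
  · constructor
    · intro u hu
      have := hU u u.2 (fun v hv => hu ⟨v, hv⟩)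
      exact Subtype.ext this
    · intro u hu
      have := hU u u.2 (fun v hv => by rw [hs]; exact hu ⟨v, hv⟩)
      exact Subtype.ext this

end decomp

/-- The abstract main theorem. -/
theorem main_abs (hlog : S_log) (hhyp : S_hyp) (hlie : S_lie) (hre : S_re) (hcore : S_core)
    (n : ℕ) (h : Submodule ℝ (End ℝ (Fin n → ℝ)))
    (hcl : ∀ x : End ℝ (Fin n → ℝ), (∀ (k : ℕ)
      (t : MultilinearMap ℝ (fun _ : Fin k => (Fin n → ℝ)) ℝ), (∀ y ∈ h, Kills y t) → Kills x t) →
      x ∈ h)
    (B : (Fin n → ℝ) →ₗ[ℝ] (Fin n → ℝ) →ₗ[ℝ] ℝ) (hs : ∀ u v, B u v = B v u)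
    (hsk : ∀ y ∈ h, Skew B y) (U : Submodule ℝ (Fin n → ℝ)) (hU : ∀ y ∈ h, ∀ u ∈ U, y u ∈ U)
    (hirr : CIrrOn (h : Set (End ℝ (Fin n → ℝ))) U) (p q : Fin n → ℝ) (hp : p ∈ U) (hq : q ∈ U)
    (hpp : 0 < B p p) (hqq : B q q = B p p) (hpq : B p q = 0)
    (hn : ∀ v, v ≠ 0 → B v p = 0 → B v q = 0 → B v v < 0) (h5 : finrank ℝ U ≠ 5) :
    ∀ y : End ℝ (Fin n → ℝ), Skew B y → (∀ v, (∀ u ∈ U, B u v = 0) → y v = 0) → y ∈ h := by
  classical
  have hqp : B q p = 0 := by rw [hs]; exact hpq
  have hcompl := isCompl_orth hp hq hs hn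
  set W := orth B U with hW
  -- elements of `h` preserve `W`
  have hWst : ∀ y ∈ h, ∀ w ∈ W, y w ∈ W := by
    intro y hy w hw u hu
    have h1 := hsk y hy u w
    have h2 : B (y u) w = 0 := hw (y u) (hU y hy u hu)
    linarith
  -- a negative vector of `U`
  have hneg : ∃ u ∈ U, B u u < 0 := by
    by_contra hcon
    push Not at hcon
    -- `U` is spanned by `p` and `q`
    have hspan : ∀ u ∈ U, u = (B u p / B p p) • p + (B u q / B p p) • q := by
      intro u hu
      by_contra h0
      have hu' : u - ((B u p / B p p) • p + (B u q / B p p) • q) ≠ 0 := sub_ne_zero.2 h0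
      have hmem : u - ((B u p / B p p) • p + (B u q / B p p) • q) ∈ U :=
        U.sub_mem hu (U.add_mem (U.smul_mem _ hp) (U.smul_mem _ hq))
      have h1 := hn _ hu' (by
        simp only [map_sub, map_add, map_smul, LinearMap.sub_apply, LinearMap.add_apply,
          LinearMap.smul_apply, smul_eq_mul, hqp]
        field_simp
        ring) (by
        simp only [map_sub, map_add, map_smul, LinearMap.sub_apply, LinearMap.add_apply,
          LinearMap.smul_apply, smul_eq_mul, hpq, hqq]
        field_simp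
        ring)
      exact absurd (hcon _ hmem) (not_le.2 h1)
    have hyp' : ∀ y ∈ h, y p = (B (y p) q / B p p) • q ∧ y q = -((B (y p) q / B p p) • p) := by
      intro y hy
      have e1 := hsk y hy p p
      have e2 := hsk y hy q q
      have e3 := hsk y hy p q
      rw [hs p (y p)] at e1
      rw [hs q (y q)] at e2
      rw [hs p (y q)] at e3
      have f1 : B (y p) p = 0 := by linarith
      have f2 : B (y q) q = 0 := by linarith
      have f3 : B (y q) p = -B (y p) q := by linarith
      constructor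
      · have := hspan (y p) (hU y hy p hp)
        rw [f1, zero_div, zero_smul, zero_add] at this
        exact this
      · have := hspan (y q) (hU y hy q hq)
        rw [f2, zero_div, zero_smul, add_zero, f3, neg_div, neg_smul] at this
        exact this
    let J : (Fin n → ℝ) →ₗ[ℝ] (Fin n → ℝ) :=
      (B.flip p).smulRight ((B p p)⁻¹ • q) - (B.flip q).smulRight ((B p p)⁻¹ • p)
    have hJ : ∀ u, J u = (B u p / B p p) • q - (B u q / B p p) • p := by
      intro u
      simp only [J, LinearMap.sub_apply, LinearMap.smulRight_apply, LinearMap.flip_apply, smul_smul,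
        div_eq_mul_inv]
    have hJU : ∀ u, J u ∈ U := by
      intro u
      rw [hJ]
      exact U.sub_mem (U.smul_mem _ hq) (U.smul_mem _ hp)
    have hJp : J p = q := by
      rw [hJ, hpq, div_self hpp.ne', one_smul, zero_div, zero_smul, sub_zero]
    have hJq : J q = -p := by
      rw [hJ, hqp, hqq, div_self hpp.ne', one_smul, zero_div, zero_smul, zero_sub]
    have hJJ : ∀ u ∈ U, J (J u) = -u := by
      intro u hu
      rw [hJ u, map_sub, map_smul, map_smul, hJp, hJq]
      conv_rhs => rw [hspan u hu]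
      rw [smul_neg, neg_add]
      abel
    have hJy : ∀ y ∈ h, ∀ u ∈ U, y (J u) = J (y u) := by
      intro y hy u hu
      obtain ⟨e1, e2⟩ := hyp' y hy
      rw [hJ u, map_sub, map_smul, map_smul]
      conv_rhs => rw [hspan u hu]
      rw [map_add, map_smul, map_smul, map_add, map_smul, map_smul, e1, e2, map_neg, map_smul,
        map_smul, hJp, hJq]
      simp only [smul_neg, smul_smul]
      abel
    let M : Submodule ℝ ((Fin n → ℝ) × (Fin n → ℝ)) := U.map (LinearMap.prod LinearMap.id J)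
    have hM : ∀ x, x ∈ M ↔ x.1 ∈ U ∧ x.2 = J x.1 := by
      intro x
      constructor
      · rintro ⟨u, hu, rfl⟩
        exact ⟨hu, rfl⟩
      · rintro ⟨hx, hx2⟩
        exact ⟨x.1, hx, Prod.ext rfl hx2.symm⟩
    rcases hirr M (fun x hx => by
        obtain ⟨h1, h2⟩ := (hM x).1 hx
        exact ⟨h1, h2 ▸ hJU _⟩) (by
        intro x hx
        obtain ⟨h1, h2⟩ := (hM x).1 hx
        refine (hM _).2 ⟨U.neg_mem (h2 ▸ hJU _), ?_⟩
        simp only [map_neg, h2, hJJ _ h1, neg_neg]) (by
        intro y hy x hx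
        obtain ⟨h1, h2⟩ := (hM x).1 hx
        refine (hM _).2 ⟨hU y hy _ h1, ?_⟩
        simp only [h2, hJy y hy _ h1]) with hbot | htop
    · have : ((p, J p) : (Fin n → ℝ) × (Fin n → ℝ)) ∈ M := (hM _).2 ⟨hp, rfl⟩
      rw [hbot, Submodule.mem_bot] at this
      have hp0 : p = 0 := congrArg Prod.fst this
      rw [hp0] at hpp
      simp at hpp
    · have := (hM _).1 (htop p hp 0 U.zero_mem)
      have h2 : (0 : Fin n → ℝ) = q := by rw [← hJp]; exact this.2
      rw [← h2] at hqq
      simp at hqq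
      linarith
  -- a hyperbolic element
  obtain ⟨g, hg1, hg2, α, β, hαβ, hce⟩ := hhyp n h B U hU hs hsk hirr ⟨p, hp, hpp⟩ hneg
  obtain ⟨x, hxd, hxk, hx0, hxs⟩ := hlog n g
  have hxh : x ∈ h := hcl x (fun k t ht => hxk k t (hg1 k t ht))
  have hxne : x ≠ 0 := hx0 α β hce hαβ
  -- `x` vanishes on `W`
  have hxW : ∀ w ∈ W, x w = 0 := by
    have h1 : W ≤ LinearMap.ker x := by
      have h2 : W = ⨆ μ : ℝ, W ⊓ End.eigenspace x μ := by
        have h3 := Submodule.inf_iSup_genEigenspace (f := x) (p := W) (hWst x hxh) 1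
        have h4 : (⨆ μ : ℝ, x.genEigenspace μ 1) = ⊤ := hxd
        rw [h4, inf_top_eq] at h3
        exact h3
      rw [h2]
      refine iSup_le fun μ => ?_
      rintro v ⟨hv1, hv2⟩
      rw [SetLike.mem_coe, End.mem_eigenspace_iff] at hv2
      by_cases hv0 : v = 0
      · rw [hv0]; exact Submodule.zero_mem _
      have h5 := hsk x hxh v v
      rw [hv2, map_smul, map_smul, LinearMap.smul_apply, smul_eq_mul] at h5
      have h6 := orth_neg hp hq hs hn hv1 hv0
      have h7 : μ = 0 := by
        by_contra hμ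
        have : μ * B v v = 0 := by linarith
        rcases mul_eq_zero.1 this with h8 | h8
        · exact hμ h8
        · exact absurd h8 h6.ne
      rw [LinearMap.mem_ker, hv2, h7, zero_smul]
    exact fun w hw => h1 hw
  -- the Lie algebras on `U`
  let BU : U →ₗ[ℝ] U →ₗ[ℝ] ℝ := B.domRestrict₁₂ U U
  have hBU : ∀ u v : U, BU u v = B u v := fun u v => rfl
  let hh : Submodule ℝ (End ℝ U) :=
    { carrier := {z | ∃ y ∈ h, ∀ u : U, ((z u : U) : Fin n → ℝ) = y u}
      zero_mem' := ⟨0, h.zero_mem, fun u => rfl⟩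
      add_mem' := by
        rintro a b ⟨y, hy, h1⟩ ⟨y', hy', h2⟩
        exact ⟨y + y', h.add_mem hy hy', fun u => by
          simp [h1, h2]⟩
      smul_mem' := by
        rintro c a ⟨y, hy, h1⟩
        exact ⟨c • y, h.smul_mem _ hy, fun u => by simp [h1]⟩ }
  let nn : Submodule ℝ (End ℝ U) :=
    { carrier := {z | ∃ y ∈ h, (∀ u : U, ((z u : U) : Fin n → ℝ) = y u) ∧ ∀ w ∈ W, y w = 0}
      zero_mem' := ⟨0, h.zero_mem, fun u => rfl, fun w _ => rfl⟩
      add_mem' := by
        rintro a b ⟨y, hy, h1, h1'⟩ ⟨y', hy', h2, h2'⟩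
        exact ⟨y + y', h.add_mem hy hy', fun u => by
          simp [h1, h2], fun w hw => by simp [h1' w hw, h2' w hw]⟩
      smul_mem' := by
        rintro c a ⟨y, hy, h1, h1'⟩
        exact ⟨c • y, h.smul_mem _ hy, fun u => by simp [h1], fun w hw => by simp [h1' w hw]⟩ }
  have hlie' : ∀ y ∈ h, ∀ y' ∈ h, y * y' - y' * y ∈ h := by
    intro y hy y' hy'
    exact hcl _ (fun k t ht => hlie _ k t y y' (ht y hy) (ht y' hy'))
  -- projections
  let π : (Fin n → ℝ) →ₗ[ℝ] U := U.projectionOnto W hcompl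
  have hπU : ∀ u : U, π u = u := fun u => Submodule.projectionOnto_apply_left hcompl u
  have hπW : ∀ w ∈ W, π w = 0 := fun w hw =>
    (Submodule.projectionOnto_apply_eq_zero_iff hcompl).2 hw
  have hρ : ∀ v, v - (π v : Fin n → ℝ) ∈ W := by
    intro v
    have h1 : π (v - (π v : Fin n → ℝ)) = 0 := by
      rw [map_sub, hπU, sub_self]
    exact (Submodule.projectionOnto_apply_eq_zero_iff hcompl).1 h1
  have hBdec : ∀ v w, B v w = B (π v) (π w) + B (v - π v) (w - π w) := by
    intro v w
    have e1 : B (π v) (w - π w) = 0 := hρ w _ (π v).2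
    have e2 : B (v - π v) (π w) = 0 := by rw [hs]; exact hρ v _ (π w).2
    conv_lhs => rw [show v = (π v : Fin n → ℝ) + (v - π v) by abel,
      show w = (π w : Fin n → ℝ) + (w - π w) by abel]
    simp only [map_add, LinearMap.add_apply, e1, e2]
    ring
  have hDat : Dat BU hh nn := by
    refine ⟨⟨fun u v => hs u v, ⟨p, hp⟩, ⟨q, hq⟩, hpp, by rw [hBU]; exact hqq ▸ hpp, hpq, ?_⟩, ?_,
      ?_, ?_, ?_, ?_, ?_⟩
    · intro v hv h1 h2
      exact hn v (fun h0 => hv (Subtype.ext h0)) h1 h2
    · rintro z ⟨y, hy, hz⟩ u v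
      rw [hBU, hBU, hz, hz]
      exact hsk y hy u v
    · rintro z ⟨y, hy, hz, _⟩
      exact ⟨y, hy, hz⟩
    · rintro z ⟨y, hy, hz⟩ z' ⟨y', hy', hz'⟩
      refine ⟨y * y' - y' * y, hlie' y hy y' hy', fun u => ?_⟩
      simp only [LinearMap.sub_apply, End.mul_apply, Submodule.coe_sub, hz, hz']
    · rintro z ⟨y, hy, hz⟩ z' ⟨y', hy', hz', hw'⟩
      refine ⟨y * y' - y' * y, hlie' y hy y' hy', fun u => ?_, fun w hw => ?_⟩
      · simp only [LinearMap.sub_apply, End.mul_apply, Submodule.coe_sub, hz, hz']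
      · simp only [LinearMap.sub_apply, End.mul_apply, hw' w hw, map_zero,
          hw' _ (hWst y hy w hw), sub_zero]
    · intro M hMJ hMh
      let ι : (U × U) →ₗ[ℝ] ((Fin n → ℝ) × (Fin n → ℝ)) := LinearMap.prodMap U.subtype U.subtype
      have hι : ∀ x : U × U, ι x = ((x.1 : Fin n → ℝ), (x.2 : Fin n → ℝ)) := fun x => rfl
      rcases hirr (M.map ι) (by
          rintro _ ⟨x, _, rfl⟩
          exact ⟨x.1.2, x.2.2⟩) (by
          rintro _ ⟨x, hx, rfl⟩
          exact ⟨(-x.2, x.1), hMJ x hx, by simp [hι]⟩) (by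
          rintro y hy _ ⟨x, hx, rfl⟩
          have hst : ∀ u ∈ U, y u ∈ U := hU y hy
          refine ⟨(LinearMap.restrict y hst x.1, LinearMap.restrict y hst x.2),
            hMh (LinearMap.restrict y hst) ⟨y, hy, fun u => rfl⟩ x hx, by simp [hι]⟩) with h1 | h1
      · left
        rw [eq_bot_iff]
        intro x hx
        have : ι x ∈ M.map ι := ⟨x, hx, rfl⟩
        rw [h1, Submodule.mem_bot, hι] at this
        have e1 : (x.1 : Fin n → ℝ) = 0 := congrArg Prod.fst this
        have e2 : (x.2 : Fin n → ℝ) = 0 := congrArg Prod.snd this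
        rw [Submodule.mem_bot]
        exact Prod.ext (Subtype.ext e1) (Subtype.ext e2)
      · right
        rw [eq_top_iff]
        intro x _
        obtain ⟨x', hx', hxx⟩ := h1 x.1 x.1.2 x.2 x.2.2
        rw [hι] at hxx
        have e1 : x'.1 = x.1 := Subtype.ext (congrArg Prod.fst hxx)
        have e2 : x'.2 = x.2 := Subtype.ext (congrArg Prod.snd hxx)
        have : x' = x := Prod.ext e1 e2
        rwa [← this]
    · rintro P hP y₁ y₂ h1 h2 hc ⟨y, hy, hyz⟩
      let P' : (Fin n → ℝ) →ₗ[ℝ] (Fin n → ℝ) →ₗ[ℝ] ℝ :=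
        P.compl₁₂ π π - B.compl₁₂ (LinearMap.id - U.subtype ∘ₗ π) (LinearMap.id - U.subtype ∘ₗ π)
      have hP' : ∀ v w, P' v w = P (π v) (π w) - B (v - π v) (w - π w) := fun v w => rfl
      have hP'pos : IsPos P' := by
        refine ⟨fun u v => ?_, fun u hu => ?_⟩
        · rw [hP', hP', hP.1, hs]
        · rw [hP']
          by_cases hu1 : π u = 0
          · have hu2 : u - (π u : Fin n → ℝ) ≠ 0 := by
              rw [hu1]; simpa using hu
            have := orth_neg hp hq hs hn (hρ u) hu2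
            rw [hu1] at this ⊢
            simp only [map_zero, LinearMap.zero_apply]
            linarith
          · have h3 := hP.2 _ hu1
            have h4 : B (u - π u) (u - π u) ≤ 0 := by
              by_cases hu2 : u - (π u : Fin n → ℝ) = 0
              · rw [hu2]; simp
              · exact (orth_neg hp hq hs hn (hρ u) hu2).le
            linarith
      let y₁' : End ℝ (Fin n → ℝ) := U.subtype ∘ₗ y₁ ∘ₗ π
      have hy₁' : ∀ v, y₁' v = (y₁ (π v) : Fin n → ℝ) := fun v => rfl
      let y₂' : End ℝ (Fin n → ℝ) := y - y₁'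
      have hyπ : ∀ v, π (y v) = y₁ (π v) + y₂ (π v) := by
        intro v
        have e1 : y v = ((y₁ + y₂) (π v) : U) + y (v - π v) := by
          rw [hyz, map_sub]; abel
        rw [e1, map_add, hπU, hπW _ (hWst y hy _ (hρ v)), add_zero, LinearMap.add_apply]
      have hyρ : ∀ v, y v - (π (y v) : Fin n → ℝ) = y (v - π v) := by
        intro v
        rw [hyπ, map_sub, ← hyz]
        simp
      have hπ1 : ∀ v, π (y₁' v) = y₁ (π v) := fun v => by rw [hy₁', hπU]
      have hρ1 : ∀ v, y₁' v - (π (y₁' v) : Fin n → ℝ) = 0 := fun v => by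
        rw [hπ1, hy₁', sub_self]
      have hπ2 : ∀ v, π (y₂' v) = y₂ (π v) := fun v => by
        change π (y v - y₁' v) = _
        rw [map_sub, hyπ, hπ1]; abel
      have hρ2 : ∀ v, y₂' v - (π (y₂' v) : Fin n → ℝ) = y (v - π v) := fun v => by
        have : y₂' v - (π (y₂' v) : Fin n → ℝ) =
            (y v - (π (y v) : Fin n → ℝ)) - (y₁' v - (π (y₁' v) : Fin n → ℝ)) := by
          change y v - y₁' v - (π (y v - y₁' v) : Fin n → ℝ) = _
          rw [map_sub]
          simp only [Submodule.coe_sub]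
          abel
        rw [this, hyρ, hρ1, sub_zero]
      have hmem : y₁' ∈ h := by
        refine hcl _ (fun k t ht => ?_)
        refine hre _ P' hP'pos y₁' y₂' ?_ ?_ ?_ k t ?_
        · intro u v
          rw [hP', hP', hρ1, hρ1, hπ1, hπ1, h1 (π u) (π v)]
          simp
        · intro u v
          rw [hP', hP', hρ2, hρ2, hπ2, hπ2]
          have e1 := h2 (π u) (π v)
          have e2 := hsk y hy (u - π u) (v - π v)
          linarith
        · refine LinearMap.ext fun v => ?_
          have e1 : π (y₁' (y₂' v)) = π (y₂' (y₁' v)) := by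
            rw [hπ1, hπ2, hπ2, hπ1]
            exact congrArg (fun f : End ℝ U => f (π v)) hc
          have e2 : y₁' (y₂' v) - (π (y₁' (y₂' v)) : Fin n → ℝ) =
              y₂' (y₁' v) - (π (y₂' (y₁' v)) : Fin n → ℝ) := by
            rw [hρ1, hρ2, hρ1, map_zero]
          have e3 : y₁' (y₂' v) = y₂' (y₁' v) := by
            rw [e1] at e2
            exact sub_left_injective e2
          rw [End.mul_apply, End.mul_apply, e3]
        · have : y₁' + y₂' = y := by
            change y₁' + (y - y₁') = y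
            abel
          rw [this]
          exact ht y hy
      exact ⟨y₁', hmem, fun u => by rw [hy₁', hπU], fun w hw => by
        rw [hy₁', hπW w hw, map_zero]; rfl⟩
  have hxU : ∀ u ∈ U, x u ∈ U := hU x hxh
  have hxn : LinearMap.restrict x hxU ∈ nn := ⟨x, hxh, fun u => rfl, hxW⟩
  have hx0' : LinearMap.restrict x hxU ≠ 0 := by
    intro h0
    apply hxne
    refine LinearMap.ext fun v => ?_
    have e1 : x v = x (π v) + x (v - π v) := by rw [map_sub]; abel
    have e2 : x (π v : Fin n → ℝ) = 0 :=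
      congrArg (Subtype.val) (congrArg (fun f : End ℝ U => f (π v)) h0)
    rw [e1, e2, hxW _ (hρ v), add_zero, LinearMap.zero_apply]
  have hxdU : Diag (LinearMap.restrict x hxU) := by
    have h4 : (⨆ μ : ℝ, x.genEigenspace μ 1) = ⊤ := hxd
    exact Module.End.genEigenspace_restrict_eq_top hxU h4
  intro y hysk hyW
  have hyU : ∀ u ∈ U, y u ∈ U := by
    intro u hu
    have h1 : y u - (π (y u) : Fin n → ℝ) = 0 := by
      by_contra h0
      have h2 := orth_neg hp hq hs hn (hρ (y u)) h0
      have h3 : B (y u) (y u - π (y u)) = 0 := by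
        have h4 := hysk u (y u - π (y u))
        rw [hyW _ (hρ (y u)), map_zero, add_zero] at h4
        exact h4
      have h6 : π (y u - (π (y u) : Fin n → ℝ)) = 0 := by rw [map_sub, hπU, sub_self]
      rw [hBdec (y u) (y u - π (y u)), h6] at h3
      simp only [Submodule.coe_zero, sub_zero, map_zero, zero_add] at h3
      exact h2.ne h3
    rw [sub_eq_zero] at h1
    rw [h1]
    exact (π (y u)).2
  obtain ⟨y', hy', h1, h2⟩ := hcore U BU hh nn hDat h5 ⟨_, hxn, hx0', hxdU⟩
    (LinearMap.restrict y hyU) (fun u v => hysk u v)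
  have : y = y' := by
    refine LinearMap.ext fun v => ?_
    have e1 : y v = y (π v) + y (v - π v) := by rw [map_sub]; abel
    have e2 : y' v = y' (π v) + y' (v - π v) := by rw [map_sub]; abel
    rw [e1, e2, hyW _ (hρ v), h2 _ (hρ v), ← h1]
    rfl
  rw [this]
  exact hy'

end

end Pool.Agent.W544.K3
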